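import Pool.Agent.N62.FQ.Num
import Pool.Agent.Z705.Fin
import Pool.Agent.Y17.X.Sel
import Pool.Agent.Y17.X.SelInf
import Pool.Agent.Y687.MQ.Fin
import Pool.Agent.Y703.CQ.Cor
import Pool.Agent.Y948.CQ.C2

/-!
The `2 ^ ∞`-Selmer groups of the quadratic twists of `X_0(14)` (a curve without complex multiplication,
with exactly one rational point of order two) by the numbers with a FIXED number of prime factors
taken from ARBITRARY sets of primes of positive lower density: the exact probability of the zero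
sequence.

Let `S_1, …, S_m` be disjoint sets of primes, each of positive lower density in the primes and each
contained in one of the following classes: `1`: `p ≡ 1 mod 8` split in `ℚ(√-7)`; `3`, `5`: `p ≡ 3 mod 8`,
`p ≡ 5 mod 8` inert in `ℚ(√-7)`, `p ≠ 3`. Consider the squarefree `N` with all prime factors in the union
of the `S_c`, exactly `n_c` of them in `S_c`, and the twist `E^D` by `D = ± N ≡ 1 mod 4`; let `ν_r` be the
number of the prime factors in the class `r` (so `ν_r` is the sum of the `n_c` for the sets `S_c` in the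
class `r`). Assume that `ν_5` is even and that there is an inert prime factor. Then:
* the number of these `N ≤ X` is between two positive constants times `X (log log X)^{k-1} / log X`,
  `k` the number of the prime factors;
* the proportion of the `N` for which all the terms of
  `0 → E^D(ℚ) ⊗ ℚ₂/ℤ₂ → Sel_{2 ^ ∞}(E^D) → Ш(E^D)[2 ^ ∞] → 0` are zero tends to
  `∏_{i < ⌈ν_1 / 2⌉} (1 - 2^{-(2i+1)})`, a positive rational number which depends only on the number `ν_1`
  of the split prime factors, and not on the sets `S_c`;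
* as `ν_1` grows, these numbers decrease to `∏_{i ≥ 1} (1 - 2^{1 - 2 i}) = 0.4194...`, the probability
  of the zero sequence in the model of Bhargava, Kane, Lenstra, Poonen and Rains conditional on even
  corank.

The criterion for a single `D` is that of the library (`TrivialSelInfTwists`: helpers 700, 17, 687 and
their teams), where the density over all the `D` of the class is computed. The engine for a fixed
number of primes is `Pool/Agent/V11291/FK` (used before only for cubic twists). New here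
(`Pool/Agent/N62/FQ`): the law of the symmetric matrices of the symbols between the prime factors for
every number of primes of each class, with no hypothesis on the sets of primes but their lower density.
-/

set_option autoImplicit false

open Finset Filter Topology

namespace Pool.Agent.Results.MP_a3f657_nt.FixedNumberOfPrimes

open Pool.Agent.TH841.SH.D (Sha Pruf)

open Pool.Agent.Y17.X.SI (SelInf)

/-- coefficients of the twist `E^D : y² = x³ + A D x + B D` of `X_0(14)` -/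
def A (D : ℤ) : ℤ := 5805 * D ^ 2

/-- coefficients of the twist `E^D : y² = x³ + A D x + B D` of `X_0(14)` -/
def B (D : ℤ) : ℤ := -285714 * D ^ 3

/-- the curve `E^D` over `ℚ` -/
def E (D : ℤ) : WeierstrassCurve ℚ :=
  { a₁ := 0, a₂ := 0, a₃ := 0, a₄ := (A D : ℚ), a₆ := (B D : ℚ) }

/-- all the terms of the sequence `0 → E^D(ℚ) ⊗ ℚ₂/ℤ₂ → Sel_{2 ^ ∞}(E^D) → Ш(E^D)[2 ^ ∞] → 0` are
zero -/
def ZeroSeq (D : ℤ) : Prop :=
  (∀ x : TensorProduct ℤ (E D).toAffine.Point Pruf, x = 0) ∧ (∀ x : SelInf (E D), x = 0) ∧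
    ∀ (k : ℕ) (x : Sha (E D)), (2 ^ k : ℕ) • x = 0 → x = 0

/-- `p` splits in `ℚ(√-7)` (for a prime `p ≠ 2, 7`) -/
def Splits (p : ℕ) : Prop := p % 7 = 1 ∨ p % 7 = 2 ∨ p % 7 = 4

/-- `p` is inert in `ℚ(√-7)` (for a prime `p ≠ 2, 7`) -/
def Inert (p : ℕ) : Prop := p % 7 = 3 ∨ p % 7 = 5 ∨ p % 7 = 6

/-- the primes of the kind `r`: `r = 1`: `1 mod 8`, split in `ℚ(√-7)`; `r = 3`, `r = 5`: `r mod 8`, inert in
`ℚ(√-7)`, different from `3` -/
def Kind (r p : ℕ) : Prop :=
  p.Prime ∧ p ≠ 3 ∧ p % 8 = r ∧ (r = 1 ∧ Splits p ∨ (r = 3 ∨ r = 5) ∧ Inert p)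

/-- positive lower density in the set of the primes: at least `δ Y / log Y` elements up to `Y`, for a
`δ > 0` and all large `Y` -/
def Dense (S : Set ℕ) : Prop := ∃ (δ : ℝ) (Y₀ : ℕ), 0 < δ ∧ ∀ Y : ℕ, Y₀ ≤ Y →
  δ * (Y / Real.log Y) ≤ (Nat.card {p : ℕ // p ≤ Y ∧ p ∈ S} : ℝ)

/-- the limit -/
noncomputable def limit (a : ℕ) : ℝ := ∏ i ∈ range ((a + 1) / 2), (1 - (1 / 2 : ℝ) ^ (2 * i + 1))

/-- `n` or `-n`, congruent to `1` modulo `4`, for odd `n` -/
def disc (n : ℕ) : ℤ := if n % 4 = 1 then (n : ℤ) else -(n : ℤ)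

/-- the size of the family is between two constants times `X (log log X) ^ (k - 1) / log X`, and the
proportion of the good members has the limit `α` -/
def Law (total good : ℕ → ℕ) (k : ℕ) (α : ℝ) : Prop :=
  (∃ (c C : ℝ) (X₀ : ℕ), 0 < c ∧ 0 < C ∧ ∀ X : ℕ, X₀ ≤ X →
    c * (X * Real.log (Real.log X) ^ (k - 1) / Real.log X) ≤ (total X : ℝ) ∧
    (total X : ℝ) ≤ C * (X * Real.log (Real.log X) ^ (k - 1) / Real.log X)) ∧
  Tendsto (fun X : ℕ => (good X : ℝ) / (total X : ℝ)) atTop (𝓝 α)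

/-- the sum of the `n c` over the `c` with `K c = r` -/
def total {m : ℕ} (K n : Fin m → ℕ) (r : ℕ) : ℕ := ∑ c ∈ univ.filter (fun c => K c = r), n c

/-- `N` is squarefree, all its prime factors are in the union of the sets `S c`, and exactly `n c` of them
are in `S c` -/
def Family {m : ℕ} (S : Fin m → Set ℕ) (n : Fin m → ℕ) (N : ℕ) : Prop :=
  Squarefree N ∧ (∀ p : ℕ, p.Prime → p ∣ N → ∃ c, p ∈ S c) ∧
    ∀ c, Nat.card {p : ℕ // p.Prime ∧ p ∣ N ∧ p ∈ S c} = n c

/-- the number of the `N` with `1 ≤ N ≤ X` and `Q N` -/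
noncomputable def count (Q : ℕ → Prop) (X : ℕ) : ℕ := Nat.card {N : ℕ // 1 ≤ N ∧ N ≤ X ∧ Q N}

section proof

open scoped Classical
open Pool.Agent.V11291.FK (Dn Tup mem_Tup)
open Pool.Agent.N62.FQ (Kd J1 al pj Sm Ij nt dn_iff sp_eq Qg Ig card_of_iff)

/-! ### The criterion -/

theorem zs_rz {D : ℤ} (hD : D ≠ 0) : ZeroSeq D ↔ Pool.Agent.Y17.X.RZ D := by
  have hZ : ZeroSeq D ↔ Pool.Agent.Y17.X.SI.ZeroSeq
      (Pool.Agent.Z702.sh (5805 * D ^ 2) (-285714 * D ^ 3)) := Iff.rfl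
  rw [hZ, Pool.Agent.Y17.X.SI.zeroSeq_ed hD, Pool.Agent.Y17.X.SI.selInf_ed hD]
  rfl

theorem zs_mid {D : ℤ} (hD : D ≠ 0) : ZeroSeq D ↔ ∀ x : SelInf (E D), x = 0 := by
  have hZ : ZeroSeq D ↔ Pool.Agent.Y17.X.SI.ZeroSeq
      (Pool.Agent.Z702.sh (5805 * D ^ 2) (-285714 * D ^ 3)) := Iff.rfl
  rw [hZ]
  exact Pool.Agent.Y17.X.SI.zeroSeq_ed hD

theorem good14_iff {D : ℤ} (h : Pool.Agent.Y687.MQ.AdmD D) :
    ZeroSeq D ↔ Pool.Agent.Y703.CQ.Gd Pool.Agent.Y703.CQ.ff D.natAbs.primeFactors := by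
  rw [← Pool.Agent.Y703.CQ.gd_iff, zs_rz h.1.ne_zero]
  exact Pool.Agent.Y17.X.rz_iff h

/-! ### The kinds of primes -/

theorem kind14_iff (r p : ℕ) : Kind r p ↔ Kd r p := by
  unfold Kind Splits Inert Pool.Agent.N62.FQ.Kd Pool.Agent.Y703.CQ.Sp Pool.Agent.Y703.CQ.In
  constructor
  · rintro ⟨h1, h2, h3, h4⟩
    rcases h4 with ⟨rfl, h5⟩ | ⟨h5, h6⟩
    · exact ⟨Or.inl ⟨h1, h3, h5⟩, h3⟩
    · refine ⟨Or.inr ⟨h1, h2, ?_, h6⟩, h3⟩
      rw [Finset.mem_insert, Finset.mem_singleton]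
      omega
  · rintro ⟨h1 | h1, h2⟩
    · refine ⟨h1.1, ?_, h2, Or.inl ⟨by rw [← h2]; exact h1.2.1, h1.2.2⟩⟩
      rintro rfl
      have := h1.2.1
      omega
    · refine ⟨h1.1, h1.2.1, h2, Or.inr ⟨?_, h1.2.2.2⟩⟩
      have := h1.2.2.1
      rw [Finset.mem_insert, Finset.mem_singleton] at this
      omega

/-! ### The discriminants -/

/-- a discriminant with the right prime factors -/
theorem adm_of_cl {D : ℤ} (hsq : Squarefree D) (h4 : D % 4 = 1)
    (hcl : Pool.Agent.Y703.CQ.Cl {3, 5} {0, 1} D.natAbs.primeFactors) :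
    Pool.Agent.Y687.MQ.AdmD D := by
  obtain ⟨D', h1, h2⟩ := Pool.Agent.Y703.CQ.cl_adm (Int.squarefree_natAbs.2 hsq) hcl
  have h3 := h1.2.1
  rcases Int.natAbs_eq_natAbs_iff.1 h2 with e | e
  · rw [← e]
    exact h1
  · omega

theorem disc_natAbs (n : ℕ) : (disc n).natAbs = n := by
  unfold disc
  split_ifs
  · exact Int.natAbs_natCast n
  · rw [Int.natAbs_neg, Int.natAbs_natCast]

theorem disc_mod {n : ℕ} (h : n % 2 = 1) : disc n % 4 = 1 := by
  unfold disc
  split_ifs <;> omega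

/-! ### The families -/

section fam

variable {m : ℕ} {S : Fin m → Set ℕ} {K n : Fin m → ℕ}

theorem fam_iff (N : ℕ) : Family S n N ↔ Squarefree N ∧ Qg S n N.primeFactors := by
  unfold Family Pool.Agent.N62.FQ.Qg
  refine and_congr_right fun hsq => and_congr ?_ (forall_congr' fun c => ?_)
  · constructor
    · intro h p hp
      exact h p (Nat.prime_of_mem_primeFactors hp) (Nat.dvd_of_mem_primeFactors hp)
    · intro h p hp hd
      exact h p (Nat.mem_primeFactors.2 ⟨hp, hd, hsq.ne_zero⟩)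
  · rw [card_of_iff (N.primeFactors.filter fun p => p ∈ S c)
      (fun p => p.Prime ∧ p ∣ N ∧ p ∈ S c) fun p => by
        rw [Finset.mem_filter, Nat.mem_primeFactors]
        constructor
        · rintro ⟨⟨h1, h2, -⟩, h3⟩
          exact ⟨h1, h2, h3⟩
        · rintro ⟨h1, h2, h3⟩
          exact ⟨⟨h1, h2, hsq.ne_zero⟩, h3⟩]

/-- the criterion, `X_0(14)` -/
theorem crit14 (hd : ∀ c c', c ≠ c' → Disjoint (S c) (S c')) (hS : ∀ c, ∀ p ∈ S c, Kind (K c) p)
    (h5 : Even (total K n 5)) {N : ℕ} (hN : Family S n N) :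
    Pool.Agent.Y687.MQ.AdmD (disc N) ∧ (ZeroSeq (disc N) ↔
      Pool.Agent.Y703.CQ.Gd Pool.Agent.Y703.CQ.ff N.primeFactors) := by
  obtain ⟨hsq, hQ⟩ := (fam_iff N).1 hN
  have hK : ∀ p ∈ N.primeFactors, Pool.Agent.Y703.CQ.Sp p ∨ Pool.Agent.Y703.CQ.In {3, 5} p := by
    intro p hp
    obtain ⟨c, hc⟩ := hQ.1 p hp
    exact ((kind14_iff _ _).1 (hS c p hc)).1
  have hodd : N % 2 = 1 := by
    rcases Nat.mod_two_eq_zero_or_one N with h | h
    · exfalso
      have h2 : 2 ∈ N.primeFactors :=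
        Nat.mem_primeFactors.2 ⟨Nat.prime_two, Nat.dvd_of_mod_eq_zero h, hsq.ne_zero⟩
      have := Pool.Agent.N62.FQ.mod_of (hK 2 h2)
      omega
    · exact h
  have h5' : (N.primeFactors.filter fun p => p % 8 = 5).card = total K n 5 :=
    Pool.Agent.N62.FQ.card_qg hd hQ (κ := fun p => p % 8)
      (fun c p hp => ((kind14_iff _ _).1 (hS c p hp)).2) 5
  have hcl : Pool.Agent.Y703.CQ.Cl {3, 5} {0, 1} N.primeFactors := by
    refine ⟨hK, ?_, ?_⟩
    · rw [h5']
      exact Nat.even_iff.1 h5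
    · rcases Nat.mod_two_eq_zero_or_one (N.primeFactors.filter fun p => p % 8 = 3).card with h | h
      · rw [h]; decide
      · rw [h]; decide
  have h4 : Pool.Agent.Y687.MQ.AdmD (disc N) := by
    refine adm_of_cl ?_ (disc_mod hodd) (by rw [disc_natAbs]; exact hcl)
    rw [← Int.squarefree_natAbs, disc_natAbs]
    exact hsq
  refine ⟨h4, ?_⟩
  rw [good14_iff h4, disc_natAbs]

theorem count_eq (Q : ℕ → Prop) [DecidablePred Q] (X : ℕ) :
    count Q X = ((Finset.Icc 1 X).filter Q).card := by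
  unfold count
  refine card_of_iff _ _ fun D => ?_
  rw [Finset.mem_filter, Finset.mem_Icc, and_assoc]

/-- the law from the law for the tuples -/
theorem law_of_tuples (hp : ∀ c, ∀ p ∈ S c, p.Prime) (hD : ∀ c, Dense (S c))
    (hd : ∀ c c', c ≠ c' → Disjoint (S c) (S c')) (hn : 1 ≤ ∑ c, n c) (G : Finset ℕ → Prop) (α : ℝ)
    (hG : ∀ N, Family S n N → (ZeroSeq (disc N) ↔ G N.primeFactors))
    (hlaw : ∀ [LinearOrder (Ig n)], Tendsto (fun X : ℕ =>
      (((Tup (fun (i : Ig n) p => p ∈ S i.1) X).filter fun p => G (univ.image p)).card : ℝ) /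
        ((Tup (fun (i : Ig n) p => p ∈ S i.1) X).card : ℝ)) atTop (𝓝 α)) :
    Law (count (Family S n)) (count fun N => Family S n N ∧ ZeroSeq (disc N)) (∑ c, n c) α := by
  have h := Pool.Agent.N62.FQ.num_law hp hd (fun c => (dn_iff (S c)).1 (hD c)) n hn G α @hlaw
  have e1 : ∀ X, count (Family S n) X =
      ((Finset.Icc 1 X).filter fun N => Squarefree N ∧ Qg S n N.primeFactors).card := by
    intro X
    rw [count_eq]
    refine congrArg Finset.card (Finset.ext fun N => ?_)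
    rw [Finset.mem_filter, Finset.mem_filter, fam_iff N]
  have e2 : ∀ X, count (fun N => Family S n N ∧ ZeroSeq (disc N)) X =
      ((Finset.Icc 1 X).filter fun N => (Squarefree N ∧ Qg S n N.primeFactors) ∧
        G N.primeFactors).card := by
    intro X
    rw [count_eq]
    refine congrArg Finset.card (Finset.ext fun N => ?_)
    rw [Finset.mem_filter, Finset.mem_filter]
    refine and_congr_right fun _ => ?_
    constructor
    · rintro ⟨h1, h2⟩
      exact ⟨(fam_iff N).1 h1, (hG N h1).1 h2⟩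
    · rintro ⟨h1, h2⟩
      exact ⟨(fam_iff N).2 h1, (hG N ((fam_iff N).2 h1)).2 h2⟩
  unfold Law
  simp only [e1, e2]
  exact h

theorem total_le (r : ℕ) : total K n r ≤ ∑ c, n c :=
  Finset.sum_le_sum_of_subset (Finset.subset_univ _)

theorem exists_index {r : ℕ} (h : 1 ≤ total K n r) : ∃ i : Ig n, K i.1 = r := by
  by_contra hc
  push Not at hc
  have : total K n r = 0 := by
    unfold total
    refine Finset.sum_eq_zero fun c hc' => ?_
    rw [Finset.mem_filter] at hc'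
    rcases Nat.eq_zero_or_pos (n c) with h0 | h0
    · exact h0
    · exact absurd hc'.2 (hc ⟨c, ⟨0, h0⟩⟩)
  omega

theorem law14 (hD : ∀ c, Dense (S c)) (hd : ∀ c c', c ≠ c' → Disjoint (S c) (S c'))
    (hS : ∀ c, ∀ p ∈ S c, Kind (K c) p) (h5 : Even (total K n 5))
    (h35 : 1 ≤ total K n 3 + total K n 5) :
    Law (count (Family S n)) (count fun N => Family S n N ∧ ZeroSeq (disc N)) (∑ c, n c)
      (limit (total K n 1)) := by
  have hK : ∀ c, ∀ p ∈ S c, Kd (K c) p := fun c p hp => (kind14_iff _ _).1 (hS c p hp)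
  have hn : 1 ≤ ∑ c, n c := by
    have h1 := total_le (K := K) (n := n) 3
    have h2 := total_le (K := K) (n := n) 5
    omega
  refine law_of_tuples (fun c p hp => (hK c p hp).prime) hD hd hn
    (Pool.Agent.Y703.CQ.Gd Pool.Agent.Y703.CQ.ff) _ (fun N hN => (crit14 hd hS h5 hN).2) ?_
  intro _inst
  have hne : ∃ i : Ig n, K i.1 ≠ 1 := by
    rcases Nat.eq_zero_or_pos (total K n 3) with h | h
    · obtain ⟨i, hi⟩ := exists_index (K := K) (n := n) (r := 5) (by omega)
      exact ⟨i, by omega⟩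
    · obtain ⟨i, hi⟩ := exists_index h
      exact ⟨i, by omega⟩
  have h1 := Pool.Agent.N62.FQ.tup_law (P := fun (i : Ig n) p => p ∈ S i.1)
    (τ := fun i : Ig n => K i.1) (fun i p hp => hK i.1 p hp)
    ⟨by rw [Pool.Agent.N62.FQ.card_kind]; exact h5, hne⟩
    (fun i => (dn_iff (S i.1)).1 (hD i.1)) Pool.Agent.Y703.CQ.ff
  have h2 : (J1 fun i : Ig n => K i.1).card = total K n 1 := Pool.Agent.N62.FQ.card_kind n K 1
  rw [h2] at h1
  exact h1

end fam

theorem prod_pos_half (m : ℕ) : 0 < ∏ i ∈ range m, (1 - (1 / 2 : ℝ) ^ (2 * i + 1)) := by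
  refine Finset.prod_pos fun i _ => ?_
  have : (1 / 2 : ℝ) ^ (2 * i + 1) ≤ (1 / 2) ^ 1 :=
    pow_le_pow_of_le_one (by norm_num) (by norm_num) (by omega)
  linarith

theorem dense_class {m t : ℕ} (hm : 1 ≤ m) (ht : Nat.Coprime t m) :
    Dense {p : ℕ | p.Prime ∧ p % m = t % m} :=
  (dn_iff _).2 (Pool.Agent.N62.FQ.dn_class hm ht)

theorem limit_le {a b : ℕ} (h : a ≤ b) : limit b ≤ limit a := by
  have h1 : Antitone fun n : ℕ => ∏ i ∈ range n, (1 - (1 / 2 : ℝ) ^ (2 * i + 1)) := by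
    refine antitone_nat_of_succ_le fun n => ?_
    rw [Finset.prod_range_succ]
    refine mul_le_of_le_one_right (prod_pos_half n).le ?_
    have : (0 : ℝ) ≤ (1 / 2 : ℝ) ^ (2 * n + 1) := by positivity
    linarith
  have h2 : (a + 1) / 2 ≤ (b + 1) / 2 := by omega
  exact h1 h2

theorem tendsto_prod : Tendsto (fun n : ℕ => ∏ i ∈ range n, (1 - (1 / 2 : ℝ) ^ (2 * i + 1))) atTop
    (𝓝 Pool.Agent.Y703.CQ.c2) := by
  obtain ⟨hC, -⟩ := Pool.Agent.Y948.CQ.t_C2
  rw [tendsto_iff_norm_sub_tendsto_zero]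
  refine squeeze_zero (fun n => norm_nonneg _) (fun n => ?_)
    (tendsto_pow_atTop_nhds_zero_of_lt_one (by norm_num : (0 : ℝ) ≤ 1 / 4)
      (by norm_num : (1 / 4 : ℝ) < 1))
  rw [Real.norm_eq_abs]
  exact hC n

theorem tendsto_limit : Tendsto limit atTop (𝓝 Pool.Agent.Y703.CQ.c2) := by
  have h2 : Tendsto (fun a : ℕ => (a + 1) / 2) atTop atTop := by
    refine tendsto_atTop_atTop.2 fun b => ⟨2 * b, fun a ha => ?_⟩
    omega
  exact tendsto_prod.comp h2

end proof

/-- **Main theorem.** -/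
theorem result :
    (∀ (m : ℕ) (S : Fin m → Set ℕ) (K n : Fin m → ℕ),
      (∀ c, Dense (S c)) → (∀ c c', c ≠ c' → Disjoint (S c) (S c')) →
      (∀ c, ∀ p ∈ S c, Kind (K c) p) →
      Even (total K n 5) → 1 ≤ total K n 3 + total K n 5 →
      (∀ N, Family S n N → (ZeroSeq (disc N) ↔ ∀ x : SelInf (E (disc N)), x = 0)) ∧
      Law (count (Family S n)) (count fun N => Family S n N ∧ ZeroSeq (disc N)) (∑ c, n c)
        (limit (total K n 1))) ∧
    (∀ a b, a ≤ b → 0 < limit b ∧ limit b ≤ limit a) ∧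
    (∃ c : ℝ, 0.4194 < c ∧ c < 0.4195 ∧
      Tendsto (fun n : ℕ => ∏ i ∈ range n, (1 - (1 / 2 : ℝ) ^ (2 * i + 1))) atTop (𝓝 c) ∧
      Tendsto limit atTop (𝓝 c)) ∧
    ∀ q t : ℕ, 1 ≤ q → Nat.Coprime t q → Dense {p : ℕ | p.Prime ∧ p % q = t % q} := by
  refine ⟨?_, fun a b h => ⟨prod_pos_half _, limit_le h⟩, ?_, fun _ _ hm ht => dense_class hm ht⟩
  · intro m S K n hD hd hS h5 h35
    exact ⟨fun N hN => zs_mid (crit14 hd hS h5 hN).1.1.ne_zero, law14 hD hd hS h5 h35⟩
  · obtain ⟨-, -, -, hc1, hc2⟩ := Pool.Agent.Y948.CQ.t_C2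
    exact ⟨Pool.Agent.Y703.CQ.c2, hc1, hc2, tendsto_prod, tendsto_limit⟩

end Pool.Agent.Results.MP_a3f657_nt.FixedNumberOfPrimes
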