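import Mathlib
import Pool.Agent.N873.AM.Tail
import Pool.Agent.N873.MF.CHR
import Pool.Agent.N873.MF.Tr

/-!
# Coranks of the `2^∞`-Selmer groups over real multiquadratic fields of all the twists of all the curves with a
subgroup `Z/2 x Z/4`

For integers `a`, `b` with `a b (a² - b²) ≠ 0` the curve `y² = x (x + a²) (x + b²)` over `ℚ` has a rational subgroup
`Z/2 x Z/4` (and every such curve is isomorphic to one of these). Let `K = ℚ(√d_1, …, √d_r)`, `d_i ≥ 1`, `d_i ≡ 1` modulo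
`4`, be a real multiquadratic field (of degree `2 ^ r` if the `d_i` are independent modulo squares; any `r`; `K = ℚ` for
`r = 0`), and `E K n (a, b)` the curve `y² = (x + 3 n (a² + b²)) (x - 3 n (2 a² - b²)) (x - 3 n (2 b² - a²))` over `K`,
which is isomorphic to `y² = x (x - n a²) (x - n b²)`, the quadratic twist by `-n`.

Let `ρ_K(n, c)` be the corank of `Sel_{2^∞}(E K n c)`, that is, the rank of `E K n c` plus the corank of
`Ш(E K n c)[2^∞]`. Let `F` be any finite set of pairs, and `s` the number of the primes which divide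
`2 a b (a² - b²)` for a pair of `F`. For ALL the squarefree `n ≡ 3` modulo `4` and for all the pairs `c` of `F`

`ρ_K(n, c) ≤ 2 ∑_S (R_S + s + 1)`,

where `S` runs through the subsets of `{1, …, r}` and `R_S` is the 4-rank of the class group of `ℚ(√(-n d_S))`,
`d_S = ∏_{i ∈ S} d_i`. The upper density of the `n` for which `ρ_K(n, c) > 2 ^ (r + 1) (ρ + s + 1)` for some `c` in `F` is
at most `∏ (1 + d_i) 4 / 2 ^ ((ρ + 1) ^ 2)`, for every `ρ`.
Parts by helpers 93, 97, 136, 273, 314, 368, 438, 482, 519, 588, 603, 614, 615, 700, 747, 756, 767, 776, 873, 887, 891, 966,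
973; the bound of the corank over multiquadratic fields by the coranks of the twists over `ℚ` is a theorem of the starting
library (`Pool.Agent.TH841.NF.one_field`).
-/

set_option autoImplicit false

namespace Pool.Agent.Results.MP_a3f657_nt.AllTwistsMultiquadratic

open Filter NumberField
open Pool.Agent.N873.UT (EQ r4 gs parts2 gs_iff exK)
open Pool.Agent.N856.JL (sfp)

/-- the pairs `(a, b)` with `a b (a² - b²) ≠ 0` -/
def Pair (c : ℤ × ℤ) : Prop := c.1 ≠ 0 ∧ c.2 ≠ 0 ∧ c.1 ^ 2 ≠ c.2 ^ 2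

/-- the number of the primes which divide `2 a b (a² - b²)` for a pair of `F` -/
noncomputable def s (F : Finset (ℤ × ℤ)) : ℕ :=
  Set.ncard {p : ℕ | p.Prime ∧ (p = 2 ∨ ∃ c ∈ F, (p : ℤ) ∣ c.1 * c.2 * (c.1 ^ 2 - c.2 ^ 2))}

/-- the numbers `n` such that `-n` is an odd fundamental discriminant -/
def T : Set ℕ := {n | Squarefree n ∧ n % 4 = 3}

/-- the coefficient `A` of `y² = x³ + A x + B` -/
def A (n : ℤ) (c : ℤ × ℤ) : ℤ := -27 * (c.1 ^ 4 - c.1 ^ 2 * c.2 ^ 2 + c.2 ^ 4) * n ^ 2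

/-- the coefficient `B` of `y² = x³ + A x + B` -/
def B (n : ℤ) (c : ℤ × ℤ) : ℤ :=
  27 * (c.1 ^ 2 + c.2 ^ 2) * (2 * c.1 ^ 2 - c.2 ^ 2) * (2 * c.2 ^ 2 - c.1 ^ 2) * n ^ 3

/-- the curve over the field `K` -/
def E (K : Type) [Field K] (n : ℤ) (c : ℤ × ℤ) : WeierstrassCurve K :=
  { a₁ := 0, a₂ := 0, a₃ := 0, a₄ := (A n c : K), a₆ := (B n c : K) }

open Classical in
/-- the rank over `K` -/
noncomputable def rank (K : Type) [Field K] (n : ℤ) (c : ℤ × ℤ) : ℕ :=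
  Module.finrank ℤ (E K n c).toAffine.Point

/-- the group `ℚ₂ / ℤ₂` -/
abbrev Pruefer : Type := ℚ_[2] ⧸ (PadicInt.subring 2).toAddSubgroup

/-- the Tate-Shafarevich group over `K` has a subgroup isomorphic to `(ℚ₂ / ℤ₂) ^ q` -/
def HasDivisible (K : Type) [Field K] [NumberField K] (n : ℤ) (c : ℤ × ℤ) (q : ℕ) : Prop :=
  ∃ f : (Fin q → Pruefer) →+ Pool.Agent.TH841.NF.D.Sha (E K n c), Function.Injective f

/-- the corank of the 2-primary part of the Tate-Shafarevich group over `K`: the largest `q` such that it contains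
`(ℚ₂ / ℤ₂) ^ q` -/
noncomputable def shaCorank (K : Type) [Field K] [NumberField K] (n : ℤ) (c : ℤ × ℤ) : ℕ :=
  sSup {q | HasDivisible K n c q}

/-- the corank of the `2^∞`-Selmer group over `K` -/
noncomputable def selCorank (K : Type) [Field K] [NumberField K] (n : ℤ) (c : ℤ × ℤ) : ℕ :=
  rank K n c + shaCorank K n c

/-- `K = ℚ(√d_1, …, √d_r)` -/
def IsMultiquadratic {r : ℕ} (d : Fin r → ℕ) (K : Type) [Field K] [NumberField K] : Prop :=
  ∃ x : Fin r → K, (∀ i, x i ^ 2 = (d i : K)) ∧ IntermediateField.adjoin ℚ (Set.range x) = ⊤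

/-- the `d_i` are independent modulo squares -/
def Independent {r : ℕ} (d : Fin r → ℕ) : Prop :=
  ∀ S : Finset (Fin r), S.Nonempty → ¬ IsSquare (∏ i ∈ S, d i)

/-- the number of the elements of `U` up to `X` -/
noncomputable def cnt (U : Set ℕ) (X : ℕ) : ℝ := (U ∩ Set.Icc 1 X).ncard

/-- the number of the squares of the ideal classes whose order divides four: `2 ^ R`, where `R` is the
4-rank of the class group -/
noncomputable def twoFour (K : Type) [Field K] [NumberField K] : ℕ :=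
  Nat.card {y : ClassGroup (𝓞 K) // ∃ x : ClassGroup (𝓞 K), x ^ 4 = 1 ∧ x ^ 2 = y}

/-- the 4-rank of the class group of `ℚ(√-m)` is `R` -/
def FourRank (m R : ℕ) : Prop := ∀ (K : Type) [Field K] [NumberField K], Module.finrank ℚ K = 2 →
  (∃ s : K, s ^ 2 = -(m : K)) → twoFour K = 2 ^ R

section proof

lemma s_eq {F : Finset (ℤ × ℤ)} (hF : ∀ c ∈ F, Pair c) : s F = (Pool.Agent.N873.AL.bad F).card := by
  unfold s
  rw [← Set.ncard_coe_finset]
  congr 1
  ext p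
  rw [Finset.mem_coe, Pool.Agent.N873.AL.bad, Nat.mem_primeFactors]
  show p.Prime ∧ _ ↔ _
  refine and_congr_right fun hp => ?_
  rw [and_iff_left (Pool.Agent.N873.AL.ne0 hF), hp.dvd_mul, Nat.prime_dvd_prime_iff_eq hp Nat.prime_two,
    hp.prime.dvd_finsetProd_iff]
  simp only [Int.natCast_dvd]

lemma two_pow (K : Type) [Field K] [NumberField K] : ∃ R : ℕ, twoFour K = 2 ^ R := by
  let G := ClassGroup (𝓞 K)
  let φ : (powMonoidHom 4 : G →* G).ker →* G := (powMonoidHom 2 : G →* G).comp (Subgroup.subtype _)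
  have h1 : IsPGroup 2 φ.range := by
    rintro ⟨y, ⟨x, hx⟩, rfl⟩
    refine ⟨1, ?_⟩
    apply Subtype.ext
    have h4 : x ^ 4 = 1 := hx
    show ((x ^ 2) ^ (2 ^ 1) : G) = 1
    rw [← pow_mul]
    exact h4
  have : Fact (Nat.Prime 2) := ⟨Nat.prime_two⟩
  obtain ⟨R, hR⟩ := IsPGroup.iff_card.1 h1
  refine ⟨R, ?_⟩
  rw [← hR]
  unfold twoFour
  refine Nat.card_congr (Equiv.subtypeEquivRight fun y => ?_)
  constructor
  · rintro ⟨x, h4, h2⟩
    exact ⟨⟨x, h4⟩, h2⟩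
  · rintro ⟨⟨x, h4⟩, h2⟩
    exact ⟨x, h4, h2⟩

lemma fr_gs {n : ℕ} (hn : n ∈ T) (R : ℕ) : FourRank n R ↔ gs n = 2 ^ (R + 1) := by
  obtain ⟨hsq, h4⟩ := hn
  constructor
  · intro h
    obtain ⟨K, i1, i2, h2, hs⟩ := exK n hsq.ne_zero
    have e1 := gs_iff parts2 hsq h4 K h2 hs
    have e2 : r4 K = 2 ^ R := h K h2 hs
    rw [e1, e2, pow_succ, mul_comm]
  · intro h K _ _ h2 hs
    have e1 := gs_iff parts2 hsq h4 K h2 hs
    rw [h, pow_succ, mul_comm] at e1
    exact (Nat.eq_of_mul_eq_mul_left (by norm_num) e1).symm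

lemma ex_R {n : ℕ} (hn : n ∈ T) : ∃ R : ℕ, FourRank n R := by
  obtain ⟨K, i1, i2, h2, hs⟩ := exK n hn.1.ne_zero
  obtain ⟨R, hR⟩ := two_pow K
  refine ⟨R, (fr_gs hn R).2 ?_⟩
  rw [gs_iff parts2 hn.1 hn.2 K h2 hs, pow_succ, mul_comm, ← hR]
  rfl

open scoped Classical in
lemma cnt_eq (S : Set ℕ) (X : ℕ) : cnt S X = (((Finset.Icc 1 X).filter fun n => n ∈ S).card : ℝ) := by
  unfold cnt
  rw [← Set.ncard_coe_finset]
  congr 2
  ext n
  rw [Finset.mem_coe, Finset.mem_filter, Finset.mem_Icc, Set.mem_inter_iff, Set.mem_Icc, and_comm]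

open scoped Classical in
lemma cnt_and (P : ℕ → Prop) (X : ℕ) :
    cnt {n ∈ T | P n} X = (((Finset.Icc 1 X).filter fun n => n ∈ T ∧ P n).card : ℝ) := by
  unfold cnt
  rw [← Set.ncard_coe_finset]
  congr 2
  ext n
  rw [Finset.mem_coe, Finset.mem_filter, Finset.mem_Icc, Set.mem_inter_iff, Set.mem_Icc, and_comm]
  exact Iff.rfl

open scoped Classical in
lemma cor_eq (K : Type) [Field K] [NumberField K] (n : ℤ) (c : ℤ × ℤ) : selCorank K n c =
    Pool.Agent.TH841.NF.D.rk (Pool.Agent.N873.MF.EK K n c) +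
      Pool.Agent.TH841.NF.D.crk (Pool.Agent.N873.MF.EK K n c) := by
  unfold selCorank rank shaCorank Pool.Agent.TH841.NF.D.rk Pool.Agent.TH841.NF.D.crk
  congr 1

open scoped Classical in
/-- **The theorem.** -/
theorem result (F : Finset (ℤ × ℤ)) (hF : ∀ c ∈ F, Pair c) (r : ℕ) (d : Fin r → ℕ)
    (hd : ∀ i, d i % 4 = 1) (K : Type) [Field K] [NumberField K] (hK : IsMultiquadratic d K) :
    -- the degree
    (Independent d → Module.finrank ℚ K = 2 ^ r) ∧
    -- the 4-ranks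
    (∀ n ∈ T, ∀ S : Finset (Fin r), ∃ R : ℕ, FourRank (n * ∏ i ∈ S, d i) R) ∧
    -- the corank is finite, and the bound, for all the twists and all the curves
    (∀ n ∈ T, ∀ c ∈ F, BddAbove {q | HasDivisible K n c q}) ∧
    (∀ n ∈ T, ∀ R : Finset (Fin r) → ℕ, (∀ S, FourRank (n * ∏ i ∈ S, d i) (R S)) → ∀ c ∈ F,
      selCorank K n c ≤ 2 * ∑ S, (R S + s F + 1)) ∧
    -- the tail
    ∀ ρ : ℕ, ∀ ε : ℝ, 0 < ε → ∀ᶠ X : ℕ in atTop,
      cnt {n ∈ T | ∃ c ∈ F, 2 ^ (r + 1) * (ρ + s F + 1) < selCorank K n c} X ≤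
        (4 * (∏ i, (1 + (d i : ℝ))) / 2 ^ (ρ + 1) ^ 2 + ε) * cnt T X := by
  obtain ⟨x, hx, hgen⟩ := hK
  have hd0 : ∀ i, 0 < d i := fun i => by
    have := hd i
    omega
  have hpos : ∀ (n : ℕ), n ∈ T → ∀ S : Finset (Fin r), 0 < n * ∏ i ∈ S, d i := fun n hn S =>
    Nat.mul_pos (Nat.pos_of_ne_zero hn.1.ne_zero) (Finset.prod_pos fun i _ => hd0 i)
  have hfr : ∀ (n : ℕ), n ∈ T → ∀ (S : Finset (Fin r)) (R : ℕ), FourRank (n * ∏ i ∈ S, d i) R ↔
      FourRank (sfp (n * ∏ i ∈ S, d i)) R := fun n hn S R =>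
    Pool.Agent.N873.MF.fr_sfp (hpos n hn S) R
  have hT : ∀ (n : ℕ), n ∈ T → ∀ S : Finset (Fin r), sfp (n * ∏ i ∈ S, d i) ∈ T := fun n hn S =>
    (Pool.Agent.N873.AK.sfp_T hn (Pool.Agent.N873.AK.prod_mod hd S)).1
  have hex : ∀ n ∈ T, ∀ S : Finset (Fin r), ∃ R : ℕ, FourRank (n * ∏ i ∈ S, d i) R := fun n hn S => by
    obtain ⟨R, hR⟩ := ex_R (hT n hn S)
    exact ⟨R, (hfr n hn S R).2 hR⟩
  have hcor : ∀ n ∈ T, ∀ R : Finset (Fin r) → ℕ, (∀ S, FourRank (n * ∏ i ∈ S, d i) (R S)) → ∀ c ∈ F,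
      BddAbove {q | HasDivisible K n c q} ∧ selCorank K n c ≤ 2 * ∑ S, (R S + s F + 1) :=
    fun n hn R hR c hc => by
    have h := Pool.Agent.N873.AM.cor_K hF hc hd K x hx hgen hn R
      (fun S => (fr_gs (hT n hn S) (R S)).1 ((hfr n hn S (R S)).1 (hR S)))
    rw [← s_eq hF, ← Finset.mul_sum] at h
    refine ⟨h.1, ?_⟩
    rw [cor_eq]
    exact h.2
  refine ⟨fun hi => (Pool.Agent.N873.MF.t_CHR r d hd0 hi K x hx hgen).2.1, hex, fun n hn c hc => ?_,
    fun n hn R hR c hc => (hcor n hn R hR c hc).2, fun ρ ε hε => ?_⟩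
  · choose R hR using hex n hn
    exact (hcor n hn R hR c hc).1
  · have h := Pool.Agent.N873.AM.tail_cor hF hd K x hx hgen ρ (fun n c => selCorank K n c)
      (fun n c => cor_eq K n c) ε hε
    filter_upwards [h] with X hX
    rw [cnt_and, cnt_eq T]
    have e : (∏ i, (1 + (d i : ℝ))) * (4 * (1 / 2 : ℝ) ^ (ρ + 1) ^ 2) =
        4 * (∏ i, (1 + (d i : ℝ))) / 2 ^ (ρ + 1) ^ 2 := by
      rw [one_div, inv_pow]
      field_simp
    rw [e, ← s_eq hF] at hX
    have e2 : 2 ^ (r + 1) * (ρ + s F + 1) = 2 ^ r * (2 * (ρ + s F + 1)) := by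
      rw [pow_succ]
      ring
    rw [e2]
    refine (le_of_eq ?_).trans hX
    rw [Nat.cast_inj]
    refine congrArg Finset.card ?_
    ext n
    simp only [Finset.mem_filter]
    exact Iff.rfl

end proof

end Pool.Agent.Results.MP_a3f657_nt.AllTwistsMultiquadratic
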