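import Pool.Agent.N818.IL.PartsP
import Pool.Agent.N818.SN.Cls

/-!
# The 2-primary parts of the Selmer groups of arbitrarily many elliptic curves with a partial rational
# 2-torsion in simultaneous quadratic twist families: exponent, order and joint Gaussian law

For a pair `(a, b)` of coprime integers, `a` odd, `b ≠ 0` even, let `W n a b` and `W n b a` be the
quotients of the twist `y² = x (x - n a²) (x - n b²)` by the points `(n a², 0)` and `(n b², 0)`:
`W n u v : y² = x³ - 2 n (2 u² - v²) x² + n² v⁴ x`, `x² - 2 n (2 u² - v²) x + n² v⁴` has the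
discriminant `16 n² u² (u² - v²)`, so that `(0, 0)` is the only rational point of order two if `u² - v²`
is not a square. Let `F` be any finite set of such pairs. `N F` is the set of the squarefree
`n ≡ 3 mod 8` such that for all `(a, b)` in `F` `-n` is not a nonzero square modulo the odd primes
dividing `a b` and `n` is not a nonzero square modulo the odd primes dividing `a² - b²`; it has positive
lower density. With no hypothesis on ranks or Tate-Shafarevich groups:
* the `n` in `N F` for which the ideal class group of `ℚ(√-n)` has no element of order four have the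
  natural density `η = ∏_{i ≥ 1} (1 - 2^{-i}) = 0.2888...` in `N F`;
* for all of them and for all the `2 #F` curves at once the rank is zero, so that
  `Sel_{2^∞} = Ш[2^∞]`, this group is killed by two, and its order is `2^(ν + O(1))`, `ν` being the
  number of the prime factors of `n` modulo which `u² - v²` is not a square;
* on this set the orders satisfy a joint Gaussian law: for all the curves for which the numbers
  `u² - v²` are not squares and pairwise independent modulo squares every nontrivial linear combination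
  of the logarithms to the base two of the orders, with the coefficients `w`, has the mean
  `(∑ w) / 2 · log log X`, the variance `((∑ w)² + ∑ w²) / 4 · log log X` and a normal limit law;
* there are such sets of `2 k` curves for every `k`.

Proof: `Pool/Agent/N818/IL`, on the basis of the criterion of the authors of `SimultaneousTwists`
(project UT). Joint work of helpers 818, 873, 11, 271, 286, 371, 427, 457, 644, 702, 907, 946, 999,
323, 160, 558, 916 and of the authors of project UT.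
-/

set_option autoImplicit false

open WeierstrassCurve Filter Topology Finset

namespace Pool.Agent.Results.MP_a3f657_nt.IsogenousTwistsLaw

open scoped Classical

open Pool.Agent.TH841.SH.D (Sha)

/-- The pairs. -/
def Pair (c : ℤ × ℤ) : Prop := IsCoprime c.1 c.2 ∧ Odd c.1 ∧ Even c.2 ∧ c.2 ≠ 0

/-- `m` is a nonzero square modulo `p`. -/
def NzSq (p : ℕ) (m : ℤ) : Prop := (m : ZMod p) ≠ 0 ∧ IsSquare (m : ZMod p)

/-- The numbers `n`. -/
def N (F : Finset (ℤ × ℤ)) : Set ℕ := {n | Squarefree n ∧ n % 8 = 3 ∧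
  ∀ c ∈ F, ∀ p : ℕ, p.Prime → p ≠ 2 → ((p : ℤ) ∣ c.1 * c.2 → ¬ NzSq p (-n)) ∧
    ((p : ℤ) ∣ c.1 ^ 2 - c.2 ^ 2 → ¬ NzSq p n)}

/-- The curve `y² = x³ - 2 n (2 u² - v²) x² + n² v⁴ x` over `ℚ`. -/
def W (n : ℕ) (u v : ℤ) : WeierstrassCurve ℚ where
  a₁ := 0
  a₂ := -2 * (n : ℚ) * (2 * (u : ℚ) ^ 2 - (v : ℚ) ^ 2)
  a₃ := 0
  a₄ := (n : ℚ) ^ 2 * (v : ℚ) ^ 4
  a₆ := 0

/-- The curves: `W n a b` for the index `((a, b), true)` and `W n b a` for `((a, b), false)`. -/
def E (n : ℕ) (i : (ℤ × ℤ) × Bool) : WeierstrassCurve ℚ :=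
  if i.2 = true then W n i.1.1 i.1.2 else W n i.1.2 i.1.1

/-- The number `u² - v²`: `a² - b²` for the index `((a, b), true)` and `b² - a²` for
`((a, b), false)`. -/
def δ (i : (ℤ × ℤ) × Bool) : ℤ :=
  if i.2 = true then i.1.1 ^ 2 - i.1.2 ^ 2 else i.1.2 ^ 2 - i.1.1 ^ 2

/-- The number of the prime factors `p` of `n` modulo which `d` is not a square. -/
noncomputable def ν (d : ℤ) (n : ℕ) : ℕ :=
  (n.primeFactors.filter fun p => ¬ IsSquare (d : ZMod p)).card

/-- The 2-primary part of `Ш(V/ℚ)`. -/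
def ShaTwo (V : WeierstrassCurve ℚ) : Set (Sha V) := {x | ∃ j : ℕ, 2 ^ j • x = 0}

/-- The logarithm to the base two of the order of `Ш(V/ℚ)[2^∞]`. -/
noncomputable def logSha (V : WeierstrassCurve ℚ) : ℝ := Real.logb 2 (Nat.card (ShaTwo V))

/-- The ideal class group of `ℚ(√-n)` has no element of order four. -/
def NoOrderFour (n : ℕ) : Prop :=
  ∀ (K : Type) [Field K] [NumberField K], Module.finrank ℚ K = 2 → (∃ s : K, s ^ 2 = -(n : K)) →
    ∀ c : ClassGroup (NumberField.RingOfIntegers K), orderOf c ≠ 4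

/-- `η = ∏_{i ≥ 1} (1 - 2^{-i})` -/
noncomputable def eta : ℝ := ∏' i : ℕ, (1 - (1 / 2 : ℝ) ^ (i + 1))

/-- The number of the `n ≤ X` in `N F` with the property `P`. -/
noncomputable def num (F : Finset (ℤ × ℤ)) (P : ℕ → Prop) (X : ℕ) : ℕ :=
  ((Icc 1 X).filter fun n => n ∈ N F ∧ P n).card

/-- The distribution function of the standard normal law. -/
noncomputable def Φ (t : ℝ) : ℝ := (ProbabilityTheory.gaussianReal 0 1).real (Set.Iic t)

/-- The numbers `u² - v²` of the indices in `I` are not squares and neither are their products in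
pairs. -/
def Independent (I : Finset ((ℤ × ℤ) × Bool)) : Prop :=
  (∀ i ∈ I, ¬ IsSquare (δ i)) ∧ ∀ i ∈ I, ∀ j ∈ I, i ≠ j → ¬ IsSquare (δ i * δ j)

section proof

open Pool.Agent.N873.UT (Adm NF Pr)
open Pool.Agent.N818.IL (uI vI dI S2 lS aI bI nu cst Parts parts)
open Pool.Agent.Z702 (WZ)

lemma pair_iff (c : ℤ × ℤ) : Pair c ↔ Pr c := by
  unfold Pair Pr
  rw [Int.odd_iff, Int.even_iff]

lemma nz_iff (p : ℕ) (hp : p.Prime) (m : ℤ) : NzSq p m ↔ jacobiSym m p = 1 := by
  have : Fact p.Prime := ⟨hp⟩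
  unfold NzSq
  rw [← jacobiSym.legendreSym.to_jacobiSym]
  constructor
  · rintro ⟨h1, h2⟩
    exact (legendreSym.eq_one_iff p h1).2 h2
  · intro h
    have h1 : (m : ZMod p) ≠ 0 := by
      intro h0
      rw [(legendreSym.eq_zero_iff p m).2 h0] at h
      exact absurd h (by norm_num)
    exact ⟨h1, (legendreSym.eq_one_iff p h1).1 h⟩

lemma N_eq {F : Finset (ℤ × ℤ)} (hF : ∀ c ∈ F, Pair c) : N F = NF F := by
  ext n
  constructor
  · rintro ⟨h1, h2, h3⟩
    refine ⟨h1, h2, fun c hc => ?_⟩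
    obtain ⟨k1, k2, k3, k4⟩ := (pair_iff c).1 (hF c hc)
    exact ⟨h1, h2, k1, k2, k3, k4,
      fun p hp hp2 hd h => (h3 c hc p hp hp2).1 hd ((nz_iff p hp _).2 h),
      fun p hp hp2 hd h => (h3 c hc p hp hp2).2 hd ((nz_iff p hp _).2 h)⟩
  · rintro ⟨h1, h2, h3⟩
    refine ⟨h1, h2, fun c hc p hp hp2 => ⟨fun hd h => ?_, fun hd h => ?_⟩⟩
    · exact (h3 c hc).ab p hp hp2 hd ((nz_iff p hp _).1 h)
    · exact (h3 c hc).dd p hp hp2 hd ((nz_iff p hp _).1 h)

lemma W_eq (n : ℕ) (u v : ℤ) : W n u v = WZ (aI n u v) (bI n v) := by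
  apply WeierstrassCurve.ext <;> simp [W, WZ, Pool.Agent.Y668.Wt, aI, bI]
  ring

lemma E_eq (n : ℕ) (i : (ℤ × ℤ) × Bool) : E n i = WZ (aI n (uI i) (vI i)) (bI n (vI i)) := by
  unfold E uI vI
  split_ifs <;> exact W_eq n _ _

lemma δ_eq (i : (ℤ × ℤ) × Bool) : δ i = dI i := by
  unfold δ dI uI vI
  split_ifs <;> rfl

lemma logSha_eq (n : ℕ) (i : (ℤ × ℤ) × Bool) : logSha (E n i) = lS i n := by
  unfold logSha lS
  rw [E_eq]
  rfl

lemma noOrderFour_iff {n : ℕ} (hn : Squarefree n) (h8 : n % 8 = 3) :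
    NoOrderFour n ↔ Pool.Agent.N969.P15.Qc n := by
  have h0 : 0 < n := by omega
  have key : ∀ (K : Type) [Field K] [NumberField K], Module.finrank ℚ K = 2 →
      (∃ s : K, s ^ 2 = -(n : K)) →
      ((∀ c : ClassGroup (NumberField.RingOfIntegers K), orderOf c ≠ 4) ↔
        Pool.Agent.N969.P15.Qc n) := by
    intro K _ _ h6 h7
    rw [Pool.Agent.N818.SN.order_iff, Pool.Agent.N875.X15.qc_iff_class hn (by omega) K h6 h7,
      ← Pool.Agent.N873.UT.qc_iff h0.ne']
  constructor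
  · intro h
    obtain ⟨K, i1, i2, h6, h7⟩ := Pool.Agent.N969.P15.exists_qf h0
    exact (key K h6 h7).1 (h K h6 h7)
  · intro h K i1 i2 h6 h7
    exact (key K h6 h7).2 h

lemma num_eq {F : Finset (ℤ × ℤ)} (hF : ∀ c ∈ F, Pair c) {P P' : ℕ → Prop} {X : ℕ}
    (h : ∀ n ∈ NF F, (P n ↔ P' n)) :
    num F P X = ((Icc 1 X).filter fun n => n ∈ NF F ∧ P' n).card := by
  unfold num
  rw [N_eq hF]
  congr 1
  ext n
  simp only [mem_filter]
  exact and_congr_right fun _ => and_congr_right fun hn => h n hn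

lemma num_true {F : Finset (ℤ × ℤ)} (hF : ∀ c ∈ F, Pair c) (X : ℕ) :
    num F (fun _ => True) X = ((Icc 1 X).filter fun n => n ∈ NF F).card := by
  unfold num
  rw [N_eq hF]
  congr 1
  ext n
  simp only [mem_filter, and_true]

/-- there are independent sets of curves -/
theorem exists_ind (k : ℕ) : ∃ F : Finset (ℤ × ℤ), F.card = k ∧ (∀ c ∈ F, Pair c) ∧
    Independent (F ×ˢ univ) := by
  have hinf := Nat.infinite_setOfPred_prime_modEq_one (k := 4) (by norm_num)
  obtain ⟨S, hS, hk⟩ := hinf.exists_subset_card_eq k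
  have hq : ∀ q ∈ S, q.Prime ∧ q % 4 = 1 := fun q hq => hS (mem_coe.2 hq)
  let f : ℕ → ℤ × ℤ := fun q => (((q : ℤ) + 1) / 2, ((q : ℤ) - 1) / 2)
  have hf : ∀ q ∈ S, (f q).1 + (f q).2 = q ∧ (f q).1 - (f q).2 = 1 := by
    intro q hqS
    have := (hq q hqS).2
    simp only [f]
    omega
  have hinj : Set.InjOn f S := by
    intro q hq1 q' hq2 h
    have h1 := (hf q (mem_coe.1 hq1)).1
    have h2 := (hf q' (mem_coe.1 hq2)).1
    rw [h] at h1
    have : (q : ℤ) = q' := h1.symm.trans h2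
    exact_mod_cast this
  have hδ : ∀ q ∈ S, ∀ b : Bool, δ (f q, b) = if b = true then (q : ℤ) else -(q : ℤ) := by
    intro q hqS b
    obtain ⟨h1, h2⟩ := hf q hqS
    unfold δ
    split_ifs
    · have : (f q).1 ^ 2 - (f q).2 ^ 2 = ((f q).1 + (f q).2) * ((f q).1 - (f q).2) := by ring
      rw [this, h1, h2, mul_one]
    · have : (f q).2 ^ 2 - (f q).1 ^ 2 = -(((f q).1 + (f q).2) * ((f q).1 - (f q).2)) := by ring
      rw [this, h1, h2, mul_one]
  refine ⟨S.image f, ?_, ?_, ?_, ?_⟩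
  · rw [card_image_of_injOn hinj, hk]
  · intro c hc
    obtain ⟨q, hqS, rfl⟩ := mem_image.1 hc
    obtain ⟨h1, h2⟩ := hf q hqS
    have h3 := hq q hqS
    refine ⟨⟨1, -1, by linarith⟩, ?_, ?_, ?_⟩
    · rw [Int.odd_iff]
      simp only [f]
      omega
    · rw [Int.even_iff]
      simp only [f]
      omega
    · have := h3.1.two_le
      simp only [f]
      omega
  · rintro ⟨c, b⟩ hi
    obtain ⟨hc, -⟩ := mem_product.1 hi
    obtain ⟨q, hqS, rfl⟩ := mem_image.1 hc
    rw [hδ q hqS b]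
    have hp := (hq q hqS).1
    split_ifs
    · rintro ⟨r, hr⟩
      have h5 : (r.natAbs * r.natAbs : ℕ) = q := by
        have := congrArg Int.natAbs hr
        rw [Int.natAbs_mul, Int.natAbs_natCast] at this
        exact this.symm
      exact Irreducible.not_isSquare hp ⟨r.natAbs, h5.symm⟩
    · intro h
      have h6 := h.nonneg
      have h7 := hp.pos
      omega
  · rintro ⟨c, b⟩ hi ⟨c', b'⟩ hj hij
    obtain ⟨hc, -⟩ := mem_product.1 hi
    obtain ⟨hc', -⟩ := mem_product.1 hj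
    obtain ⟨q, hqS, rfl⟩ := mem_image.1 hc
    obtain ⟨q', hqS', rfl⟩ := mem_image.1 hc'
    rw [hδ q hqS b, hδ q' hqS' b']
    have hp := (hq q hqS).1
    have hp' := (hq q' hqS').1
    intro h
    have hnn := h.nonneg
    have hpos : (0 : ℤ) < q := by exact_mod_cast hp.pos
    have hpos' : (0 : ℤ) < q' := by exact_mod_cast hp'.pos
    have hsame : IsSquare ((q : ℤ) * q') ∧ b = b' := by
      cases b <;> cases b' <;> simp only [Bool.false_eq_true, if_false, if_true] at h hnn ⊢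
      · exact ⟨by rwa [neg_mul_neg] at h, trivial⟩
      · nlinarith
      · nlinarith
      · exact ⟨h, trivial⟩
    obtain ⟨⟨r, hr⟩, hb⟩ := hsame
    have h5 : q * q' = r.natAbs * r.natAbs := by
      have := congrArg Int.natAbs hr
      rw [Int.natAbs_mul, Int.natAbs_mul, Int.natAbs_natCast, Int.natAbs_natCast] at this
      exact this
    by_cases hqq : q = q'
    · apply hij
      rw [hqq, hb]
    · have h6 : q ∣ r.natAbs := by
        have : q ∣ r.natAbs * r.natAbs := Dvd.intro _ h5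
        rcases (Nat.Prime.dvd_mul hp).1 this with h | h <;> exact h
      obtain ⟨s, hs⟩ := h6
      have h7 : q' = q * (s * s) := by
        have h8 : q * q' = q * (q * (s * s)) := by rw [h5, hs]; ring
        exact Nat.eq_of_mul_eq_mul_left hp.pos h8
      have h9 : q ∣ q' := Dvd.intro _ h7.symm
      exact hqq ((Nat.prime_dvd_prime_iff_eq hp hp').1 h9)

end proof

/-- **Main theorem** -/
theorem result :
    (∀ F : Finset (ℤ × ℤ), (∀ c ∈ F, Pair c) →
      (∃ ε : ℝ, 0 < ε ∧ ∀ᶠ X : ℕ in atTop, ε * X ≤ num F (fun _ => True) X) ∧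
      Tendsto (fun X : ℕ => (num F NoOrderFour X : ℝ) / (num F (fun _ => True) X : ℝ)) atTop
        (𝓝 eta) ∧
      (∃ C : ℝ, ∀ n ∈ N F, NoOrderFour n → ∀ i : (ℤ × ℤ) × Bool, i.1 ∈ F →
        Finite (E n i).toAffine.Point ∧ Finite (ShaTwo (E n i)) ∧
        (∀ x ∈ ShaTwo (E n i), x + x = 0) ∧ |logSha (E n i) - ν (δ i) n| ≤ C) ∧
      ∀ I : Finset ((ℤ × ℤ) × Bool), (∀ i ∈ I, i.1 ∈ F) → Independent I →
        ∀ w : (ℤ × ℤ) × Bool → ℝ, (∃ i ∈ I, w i ≠ 0) → ∀ t : ℝ,
          Tendsto (fun X : ℕ => (num F (fun n => NoOrderFour n ∧ ∑ i ∈ I, w i * logSha (E n i) ≤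
              (∑ i ∈ I, w i) / 2 * Real.log (Real.log X) +
                t * √(((∑ i ∈ I, w i) ^ 2 + ∑ i ∈ I, w i ^ 2) / 4 * Real.log (Real.log X))) X : ℝ) /
            (num F (fun _ => True) X : ℝ)) atTop (𝓝 (eta * Φ t))) ∧
    (∀ k : ℕ, ∃ F : Finset (ℤ × ℤ), F.card = k ∧ (∀ c ∈ F, Pair c) ∧ Independent (F ×ˢ univ)) ∧
    0.2887 < eta ∧ eta < 0.2889 := by
  have hb := Pool.Agent.N916.GB.eta_bounds
  refine ⟨fun F hF => ?_, exists_ind, hb.1, hb.2⟩
  have hF' : ∀ c ∈ F, Pool.Agent.N873.UT.Pr c := fun c hc => (pair_iff c).1 (hF c hc)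
  have P := Pool.Agent.N818.IL.parts
  have hN : ∀ n ∈ Pool.Agent.N873.UT.NF F, (NoOrderFour n ↔ Pool.Agent.N969.P15.Qc n) :=
    fun n hn => noOrderFour_iff hn.1 hn.2.1
  refine ⟨?_, ?_, ?_, ?_⟩
  · obtain ⟨c, hc, X₀, h⟩ := P.UT.low F hF'
    refine ⟨c, hc, ?_⟩
    filter_upwards [eventually_ge_atTop X₀] with X hX
    rw [num_true hF]
    exact h X hX
  · refine (Pool.Agent.N818.IL.dens P hF').congr fun X => ?_
    rw [num_true hF, num_eq hF hN]
  · refine ⟨∑ i ∈ F ×ˢ (univ : Finset Bool), (Pool.Agent.N818.IL.cst (Pool.Agent.N818.IL.uI i) (Pool.Agent.N818.IL.vI i) : ℝ), fun n hn h4 i hi => ?_⟩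
    have hn' : n ∈ Pool.Agent.N873.UT.NF F := N_eq hF ▸ hn
    obtain ⟨h1, h2, h3, h5⟩ := Pool.Agent.N818.IL.one P hn' ((hN n hn').1 h4) hi
    refine ⟨?_, ?_, ?_, ?_⟩
    · rw [E_eq]
      exact h1
    · rw [E_eq]
      exact h2
    · rw [E_eq]
      exact h3
    · rw [logSha_eq]
      have h6 : ν (δ i) n = Pool.Agent.N818.IL.nu n (Pool.Agent.N818.IL.uI i) (Pool.Agent.N818.IL.vI i) := by
        unfold ν Pool.Agent.N818.IL.nu
        rw [δ_eq]
        rfl
      rw [h6]
      refine h5.trans ?_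
      exact single_le_sum (f := fun i : (ℤ × ℤ) × Bool => (Pool.Agent.N818.IL.cst (Pool.Agent.N818.IL.uI i) (Pool.Agent.N818.IL.vI i) : ℝ))
        (fun j _ => Nat.cast_nonneg _) (mem_product.2 ⟨hi, mem_univ _⟩)
  · intro I hI hInd w hw t
    have h := Pool.Agent.N818.IL.joint P hF' I hI (fun i hi => by rw [← δ_eq]; exact hInd.1 i hi)
      (fun i hi j hj hij => by rw [← δ_eq, ← δ_eq]; exact hInd.2 i hi j hj hij) w hw t
    refine h.congr fun X => ?_
    rw [num_true hF]
    refine congrArg₂ (fun a b : ℕ => (a : ℝ) / (b : ℝ)) ?_ rfl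
    unfold num
    congr 1
    ext n
    simp only [mem_filter, N_eq hF, logSha_eq]
    constructor
    · rintro ⟨h1, h2, h3, h4⟩
      exact ⟨h1, h2, (hN n h2).2 h3, h4⟩
    · rintro ⟨h1, h2, h3, h4⟩
      exact ⟨h1, h2, (hN n h2).1 h3, h4⟩

end Pool.Agent.Results.MP_a3f657_nt.IsogenousTwistsLaw
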