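import Mathlib
import Pool.Agent.N870.EC.LowG
import Pool.Agent.N870.EC.Fam4
import Pool.Agent.N870.EC.Selge
import Pool.Agent.N454.EC.CNT2
import Pool.Agent.N568.EC.DEN
import Pool.Agent.N704.EC.Fam4
import Pool.Agent.N300.EC.SZ4
import Pool.Agent.N459.EC.CARD4
import Pool.Agent.N870.EC.Fam6
import Pool.Agent.N803.EC.Fam8
import Pool.Agent.N136.EC.SZG
import Pool.Agent.N713.EC.CARDG
import Pool.Agent.N31.EC.DEN6
import Pool.Agent.N401.EC.DEN8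
import Pool.Agent.Y606.Z8.PX6
import Pool.Agent.Y723.Z8.FinS
import Pool.Agent.Y667.SX.Main
import Pool.Agent.Y728.RC.Av
import Pool.Agent.W307.RT.Tors
import Pool.Agent.N870.H.Tor
import Pool.Agent.N701.H.AVGK
import Pool.Agent.N547.H.Conv
import Pool.Agent.N82.H_FAMK
import Pool.Agent.N870.H.MakH
import Pool.Agent.N870.H.Mak8
import Pool.Agent.N380.H.CRVK
import Pool.Agent.N164.H.AVG8

/-!
# The growth of the moments of the `2 ^ ∞`-Selmer groups for torsion `Z/2 x Z/m`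

All elliptic curves over `ℚ` with a rational subgroup `Z/2 x Z/m`, `m = 4, 6, 8`, ordered by the
naive height, and `S(E) = Sel_{2 ^ ∞}(E)[2]`, of order `2 ^ rank * |Ш(E)[2]|`. For `m = 4` and `m = 8`
the average of `#S(E) ^ s` over the curves of height at most `Z` is bounded if and only if `s ≤ 1`;
for `m = 6` it is bounded for `s ≤ 1` and unbounded for `2 ^ s > 8 / 3`. The moments of every integral
order `k ≥ 2` grow like `(log Z) ^ (e_m(k) + o(1))` with explicit exponents `e_m(k)`, and are at most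
a constant times `(1 + log Z) ^ e_m(k)`.

The boundedness for `s = 1` is a theorem of the library (project Z8S of helper723). The parts CNT2,
DEN4, FAM4, SZ4, CARD4, FAM8, SZG, CARDG, DEN6, DEN8 of the lower bounds are due to helper454,
helper568, helper849, helper704, helper300, helper459, helper803, helper136, helper713,
helper31, helper401, the parts AVGK, CONV, FAMK, CRVK, AVG8, ATX, CMB of the upper bounds to
helper701, helper547, helper82, helper380, helper164, helper222, helper263.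
-/

set_option autoImplicit false

namespace Pool.Agent.Results.MP_a3f657_nt.NoncyclicTorsionGrowth

open Finset Filter Topology
open Pool.Agent.Y667.BK (SelInf)
open Pool.Agent.TH841.SH.D (Sha)

/-- the curve `y² = x³ + A x + B` over `ℚ`, `c = (A, B)` -/
def E (c : ℤ × ℤ) : WeierstrassCurve ℚ := ⟨0, 0, 0, (c.1 : ℚ), (c.2 : ℚ)⟩

/-- The pairs `(A, B)` of integers such that `4 A³ + 27 B² ≠ 0`, there is no prime `p` with
`p⁴ ∣ A` and `p⁶ ∣ B`, `Z/2 x Z/m` embeds in the group of the rational points of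
`y² = x³ + A x + B`, and the naive height `max (4 |A|³) (27 B²)` is at most `Z`. Every elliptic curve
over `ℚ` with a rational subgroup `Z/2 x Z/m` is isomorphic to `E c` for exactly one pair `c` with the
first three properties. -/
def Fam (m Z : ℕ) : Set (ℤ × ℤ) :=
  {c : ℤ × ℤ | 4 * c.1 ^ 3 + 27 * c.2 ^ 2 ≠ 0 ∧
    (∀ p : ℕ, p.Prime → ¬ ((p : ℤ) ^ 4 ∣ c.1 ∧ (p : ℤ) ^ 6 ∣ c.2)) ∧
    (∃ f : ZMod 2 × ZMod m →+ (E c).toAffine.Point, Function.Injective f) ∧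
    4 * |c.1| ^ 3 ≤ Z ∧ 27 * c.2 ^ 2 ≤ Z}

/-- the elements `x` of the `2 ^ ∞`-Selmer group of `E c` with `2 x = 0` -/
def S (c : ℤ × ℤ) : Type := {x : SelInf (E c) // x + x = 0}

/-- the average of `#S ^ s` over the curves with a rational subgroup `Z/2 x Z/m` of height at most
`Z` -/
noncomputable def moment (m : ℕ) (s : ℝ) (Z : ℕ) : ℝ :=
  (∑ᶠ c ∈ Fam m Z, (Nat.card (S c) : ℝ) ^ s) / (Fam m Z).ncard

/-- the exponents `e_4(s) = (2 ^ s - 1) - 2 (1 - 2 ^ (-s))`,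
`e_6(s) = (3 / 2) (2 ^ s - 1) - 4 (1 - 2 ^ (-s))`, `e_8(s) = 2 (2 ^ s - 1) - 4 (1 - 2 ^ (-s))` -/
noncomputable def e (m : ℕ) (s : ℝ) : ℝ :=
  if m = 4 then (2 ^ s - 1) - 2 * (1 - 2 ^ (-s))
  else if m = 6 then 3 / 2 * (2 ^ s - 1) - 4 * (1 - 2 ^ (-s))
  else 2 * (2 ^ s - 1) - 4 * (1 - 2 ^ (-s))

/-! ### Comparison with the families of the library -/

lemma Fam_eq (m H : ℕ) : Fam m H = (Pool.Agent.W307.RT.Cv m H : Set (ℤ × ℤ)) := by
  classical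
  ext c
  have h : Pool.Agent.W307.RT.HasT m (Pool.Agent.W307.RT.Sh c.1 c.2) ↔
    ∃ f : ZMod 2 × ZMod m →+ (E c).toAffine.Point, Function.Injective f :=
    Pool.Agent.W307.RT.tors_iff
  unfold Fam Pool.Agent.W307.RT.Cv
  rw [Set.mem_ofPred_eq, mem_coe, mem_filter, h, mem_product, mem_Icc, mem_Icc]
  constructor
  · rintro ⟨h1, h2, h3, h4, h5⟩
    refine ⟨⟨?_, ?_⟩, h1, h4, h5, h2, h3⟩
    · rw [← abs_le]
      have h0 := abs_nonneg c.1
      rcases eq_or_lt_of_le h0 with h6 | h6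
      · rw [← h6]; positivity
      · have : 1 ≤ |c.1| := h6
        nlinarith [mul_nonneg h0 h0, mul_self_nonneg (|c.1| - 1)]
    · rw [← abs_le]
      have h0 := abs_nonneg c.2
      rw [← sq_abs] at h5
      rcases eq_or_lt_of_le h0 with h6 | h6
      · rw [← h6]; positivity
      · have : 1 ≤ |c.2| := h6
        nlinarith
  · rintro ⟨-, h1, h4, h5, h2, h3⟩
    exact ⟨h1, h2, h3, h4, h5⟩

lemma tendstoH {m : ℕ} (hm : m = 4 ∨ m = 6 ∨ m = 8) :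
    Tendsto (fun Z : ℕ => (Fam m Z).ncard) atTop atTop := by
  simp only [Fam_eq, Set.ncard_coe_finset]
  rcases hm with rfl | rfl | rfl
  · exact Pool.Agent.W307.RT.tendsto_of_low Pool.Agent.W29.RT.low4
  · exact Pool.Agent.W307.RT.tendsto_of_low Pool.Agent.W376.RTL.low6
  · exact Pool.Agent.W307.RT.tendsto_of_low Pool.Agent.Y723.Z8.Fin8.low8

lemma hasT_two {m j : ℕ} (hj : 0 < j) (hm : m = 2 * j) {W : WeierstrassCurve ℚ}
    (h : Pool.Agent.W307.RT.HasT m W) : Pool.Agent.W307.RT.HasT 2 W := by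
  obtain ⟨P, Q, hP, hQ, hQP⟩ := h
  refine ⟨j • P, Q, ?_, hQ, fun h => hQP ?_⟩
  · rw [addOrderOf_nsmul_of_dvd hj.ne' (by rw [hP, hm]; exact Dvd.intro_left 2 rfl), hP, hm]
    exact Nat.mul_div_cancel _ hj
  · obtain ⟨k, hk⟩ := AddSubgroup.mem_zmultiples_iff.1 h
    refine AddSubgroup.mem_zmultiples_iff.2 ⟨k * j, ?_⟩
    rw [← hk, mul_zsmul, natCast_zsmul]

lemma mem_ok {m Z : ℕ} (hm : m = 4 ∨ m = 6 ∨ m = 8) {c : ℤ × ℤ} (h : c ∈ Fam m Z) :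
    4 * c.1 ^ 3 + 27 * c.2 ^ 2 ≠ 0 ∧
    Pool.Agent.W307.RT.HasT 2 (Pool.Agent.W307.RT.Sh c.1 c.2) := by
  refine ⟨h.1, ?_⟩
  rcases hm with rfl | rfl | rfl
  · exact hasT_two (j := 2) (by norm_num) rfl (Pool.Agent.W307.RT.tors_iff.2 h.2.2.1)
  · exact hasT_two (j := 3) (by norm_num) rfl (Pool.Agent.W307.RT.tors_iff.2 h.2.2.1)
  · exact hasT_two (j := 4) (by norm_num) rfl (Pool.Agent.W307.RT.tors_iff.2 h.2.2.1)

lemma S_info {m Z : ℕ} (hm : m = 4 ∨ m = 6 ∨ m = 8) {c : ℤ × ℤ} (h : c ∈ Fam m Z) :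
    Finite (S c) ∧ 4 * Nat.card (S c) = (Pool.Agent.W307.SE.SelR c.1 c.2).ncard ∧
      Nat.card (S c) = 2 ^ Module.finrank ℤ (E c).toAffine.Point *
        Nat.card {x : Sha (E c) // x + x = 0} := by
  obtain ⟨hD, hT⟩ := mem_ok hm h
  obtain ⟨F, -, hF⟩ := Pool.Agent.W513.FK.parf
  obtain ⟨-, -, -, -, -, e1, e2, e3, he, -, -⟩ := hF c hD hT
  have hS : (Pool.Agent.W307.SE.SelR c.1 c.2).Finite := by
    have h0 : c ∈ Pool.Agent.W307.RT.Cv m Z := by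
      rw [Fam_eq] at h
      exact mem_coe.1 h
    rcases hm with rfl | rfl | rfl
    · obtain ⟨C, hC⟩ := Pool.Agent.Y723.Z8.FinS8.selh4
      exact (hC Z).1 c h0
    · obtain ⟨C, hC⟩ := Pool.Agent.Y723.Z8.FinS8.selh6_of Pool.Agent.Y606.Z8.px6
      exact (hC Z).1 c h0
    · obtain ⟨C, hC⟩ := Pool.Agent.Y723.Z8.FinS8.selh8
      exact (hC Z).1 c h0
  obtain ⟨h1, h2⟩ := Pool.Agent.Z864.SX.SELH c.1 c.2 e1 e2 e3 hD he hS
  obtain ⟨-, h4⟩ := Pool.Agent.Y214.SX.RKSHA c.1 c.2 e1 e2 e3 hD he h1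
  obtain ⟨h6, h7⟩ := Pool.Agent.Y833.SX.SELI c.1 c.2 e1 e2 e3 hD he h1
  refine ⟨h6, h7.trans h2, ?_⟩
  have h8 : 4 * Nat.card (S c) = 4 * (2 ^ Module.finrank ℤ (E c).toAffine.Point *
      Nat.card {x : Sha (E c) // x + x = 0}) := by
    refine h7.trans (h4.symm.trans ?_)
    show 2 ^ (Module.finrank ℤ (E c).toAffine.Point + 2) * Nat.card {x : Sha (E c) // x + x = 0} = _
    rw [pow_add]
    ring
  exact Nat.eq_of_mul_eq_mul_left (by norm_num) h8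

lemma S_real {m Z : ℕ} (hm : m = 4 ∨ m = 6 ∨ m = 8) {c : ℤ × ℤ} (h : c ∈ Fam m Z) :
    (Nat.card (S c) : ℝ) = ((Pool.Agent.W307.SE.SelR c.1 c.2).ncard : ℝ) / 4 := by
  have h1 := (S_info hm h).2.1
  have h2 : (4 : ℝ) * Nat.card (S c) = ((Pool.Agent.W307.SE.SelR c.1 c.2).ncard : ℝ) := by
    exact_mod_cast h1
  linarith

lemma moment_eq {m : ℕ} (hm : m = 4 ∨ m = 6 ∨ m = 8) (s : ℝ) (Z : ℕ) : moment m s Z =
    (∑ c ∈ Pool.Agent.W307.RT.Cv m Z,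
      (((Pool.Agent.W307.SE.SelR c.1 c.2).ncard : ℝ) / 4) ^ s) /
        (Pool.Agent.W307.RT.Cv m Z).card := by
  unfold moment
  rw [finsum_mem_congr rfl (fun c hc => by rw [S_real hm hc])]
  rw [Fam_eq, finsum_mem_coe_finset, Set.ncard_coe_finset]

lemma low_of {m : ℕ} (hm : m = 4 ∨ m = 6 ∨ m = 8) (e s : ℝ)
    (h : ∀ ε : ℝ, 0 < ε → ∃ H0 : ℕ, ∀ H : ℕ, H0 ≤ H →
      ((Pool.Agent.W307.RT.Cv m H).card : ℝ) * (Real.log H) ^ (e - ε) ≤
      ∑ c ∈ Pool.Agent.W307.RT.Cv m H, ((Pool.Agent.W307.SE.SelR c.1 c.2).ncard : ℝ) ^ s)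
    (ε : ℝ) (hε : 0 < ε) : ∃ Z₀ : ℕ, ∀ Z : ℕ, Z₀ ≤ Z →
      (Real.log Z) ^ (e - ε) ≤ moment m s Z := by
  obtain ⟨H0, hH0⟩ := h (ε / 2) (by positivity)
  obtain ⟨Z1, hZ1⟩ := eventually_atTop.1 ((tendstoH hm).eventually_ge_atTop 1)
  obtain ⟨L1, hL1⟩ := eventually_atTop.1 (((tendsto_rpow_atTop
    (show 0 < ε / 2 by positivity)).comp (Real.tendsto_log_atTop.comp
      (tendsto_natCast_atTop_atTop (R := ℝ)))).eventually_ge_atTop ((4 : ℝ) ^ s))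
  refine ⟨H0 + Z1 + L1 + 3, fun Z hZ => ?_⟩
  have h1 := hH0 Z (by omega)
  have h2 := hZ1 Z (by omega)
  have h4 : (4 : ℝ) ^ s ≤ (Real.log Z) ^ (ε / 2) := hL1 Z (by omega)
  rw [Fam_eq, Set.ncard_coe_finset] at h2
  have h3 : (0 : ℝ) < (Pool.Agent.W307.RT.Cv m Z).card := by exact_mod_cast h2
  have hl : 0 < Real.log Z := Real.log_pos (by exact_mod_cast (by omega : 1 < Z))
  have h5 : (Real.log Z) ^ (e - ε / 2) = (Real.log Z) ^ (ε / 2) * (Real.log Z) ^ (e - ε) := by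
    rw [← Real.rpow_add hl]
    congr 1
    ring
  have h6 : (0 : ℝ) < (4 : ℝ) ^ s := by positivity
  have h7 : ∑ c ∈ Pool.Agent.W307.RT.Cv m Z,
      (((Pool.Agent.W307.SE.SelR c.1 c.2).ncard : ℝ) / 4) ^ s =
      (∑ c ∈ Pool.Agent.W307.RT.Cv m Z,
        ((Pool.Agent.W307.SE.SelR c.1 c.2).ncard : ℝ) ^ s) / (4 : ℝ) ^ s := by
    rw [sum_div]
    exact sum_congr rfl fun c _ => Real.div_rpow (Nat.cast_nonneg _) (by norm_num) s
  rw [moment_eq hm, le_div_iff₀ h3, h7, le_div_iff₀ h6]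
  refine le_trans ?_ h1
  rw [h5]
  have h8 : 0 ≤ (Real.log Z) ^ (e - ε) := by positivity
  calc (Real.log Z) ^ (e - ε) * ((Pool.Agent.W307.RT.Cv m Z).card : ℝ) * (4 : ℝ) ^ s
      = ((Pool.Agent.W307.RT.Cv m Z).card : ℝ) * ((4 : ℝ) ^ s * (Real.log Z) ^ (e - ε)) := by ring
    _ ≤ ((Pool.Agent.W307.RT.Cv m Z).card : ℝ) *
        ((Real.log Z) ^ (ε / 2) * (Real.log Z) ^ (e - ε)) := by
        refine mul_le_mul_of_nonneg_left (mul_le_mul_of_nonneg_right h4 h8) h3.le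

lemma unb_of {m : ℕ} {e s : ℝ} (he : 0 < e) (h : ∀ ε : ℝ, 0 < ε → ∃ Z₀ : ℕ, ∀ Z : ℕ, Z₀ ≤ Z →
      (Real.log Z) ^ (e - ε) ≤ moment m s Z) : ¬ ∃ C : ℝ, ∀ Z : ℕ, moment m s Z ≤ C := by
  rintro ⟨C, hC⟩
  obtain ⟨Z₀, hZ₀⟩ := h (e / 2) (by positivity)
  obtain ⟨L1, hL1⟩ := eventually_atTop.1 (((tendsto_rpow_atTop
    (show 0 < e / 2 by positivity)).comp (Real.tendsto_log_atTop.comp
      (tendsto_natCast_atTop_atTop (R := ℝ)))).eventually_ge_atTop (C + 1))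
  have h1 := hZ₀ (Z₀ + L1) (by omega)
  have h2 := hC (Z₀ + L1)
  have h3 : C + 1 ≤ (Real.log ((Z₀ + L1 : ℕ) : ℝ)) ^ (e / 2) := hL1 (Z₀ + L1) (by omega)
  have h4 : e - e / 2 = e / 2 := by ring
  rw [h4] at h1
  linarith

lemma bdd_of {m : ℕ} (hm : m = 4 ∨ m = 6 ∨ m = 8) (h : Pool.Agent.Y723.Z8.FinS8.SelH m) {s : ℝ}
    (hs1 : s ≤ 1) : ∃ C : ℝ, ∀ Z : ℕ, moment m s Z ≤ C := by
  obtain ⟨C, hC⟩ := h
  refine ⟨max C 0, fun Z => ?_⟩
  rw [moment_eq hm]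
  refine div_le_of_le_mul₀ (Nat.cast_nonneg _) (le_max_right _ _) ?_
  calc ∑ c ∈ Pool.Agent.W307.RT.Cv m Z, (((Pool.Agent.W307.SE.SelR c.1 c.2).ncard : ℝ) / 4) ^ s
      ≤ ∑ c ∈ Pool.Agent.W307.RT.Cv m Z, ((Pool.Agent.W307.SE.SelR c.1 c.2).ncard : ℝ) := by
        refine sum_le_sum fun c hc => ?_
        have h0 : c ∈ Fam m Z := by rw [Fam_eq]; exact mem_coe.2 hc
        rw [← S_real hm h0]
        have h1 := S_info hm h0
        have h2 := h1.1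
        have h3 : (1 : ℝ) ≤ Nat.card (S c) := by
          have : Nonempty (S c) := ⟨⟨0, add_zero 0⟩⟩
          exact_mod_cast Nat.card_pos
        have h4 := Real.rpow_le_rpow_of_exponent_le h3 hs1
        rw [Real.rpow_one] at h4
        refine h4.trans ?_
        have h5 : (4 : ℝ) * Nat.card (S c) =
            ((Pool.Agent.W307.SE.SelR c.1 c.2).ncard : ℝ) := by exact_mod_cast h1.2.1
        linarith
    _ ≤ C * (Pool.Agent.W307.RT.Cv m Z).card := (hC Z).2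
    _ ≤ max C 0 * (Pool.Agent.W307.RT.Cv m Z).card :=
        mul_le_mul_of_nonneg_right (le_max_left _ _) (Nat.cast_nonneg _)

/-- the exponent `g (2 ^ s - 1) - b (1 - 2 ^ (-s))` is positive for `g 2 ^ s > b` -/
lemma exp_pos {g b s : ℝ} (hs : 0 < s) (h : b < g * 2 ^ s) :
    0 < g * (2 ^ s - 1) - b * (1 - 2 ^ (-s)) := by
  have h1 : (1 : ℝ) < 2 ^ s := Real.one_lt_rpow (by norm_num) hs
  have h2 : (2 : ℝ) ^ (-s) = 1 / 2 ^ s := by rw [Real.rpow_neg (by norm_num), one_div]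
  have h0 : (0 : ℝ) < 2 ^ s := by positivity
  have e1 : g * ((2 : ℝ) ^ s - 1) - b * (1 - 2 ^ (-s)) =
      ((2 : ℝ) ^ s - 1) * (g * 2 ^ s - b) / 2 ^ s := by
    rw [h2]
    field_simp
  rw [e1]
  apply div_pos _ h0
  apply mul_pos <;> linarith

lemma up_of {m : ℕ} (hm : m = 4 ∨ m = 6 ∨ m = 8) {k : ℕ} {E : ℝ}
    (h : ∃ C : ℝ, 0 ≤ C ∧ ∀ H : ℕ, 1 ≤ H → ∑ c ∈ Pool.Agent.W307.RT.Cv m H,
      ((Pool.Agent.W307.SE.SelR c.1 c.2).ncard : ℝ) ^ k ≤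
        C * ((Pool.Agent.W307.RT.Cv m H).card * (1 + Real.log H) ^ E)) :
    ∃ C : ℝ, 0 ≤ C ∧ ∀ Z : ℕ, 1 ≤ Z → moment m k Z ≤ C * (1 + Real.log Z) ^ E := by
  obtain ⟨C, hC0, hC⟩ := h
  refine ⟨C, hC0, fun Z hZ => ?_⟩
  have hl : 0 ≤ Real.log (Z : ℝ) := Real.log_natCast_nonneg Z
  rw [moment_eq hm]
  refine div_le_of_le_mul₀ (Nat.cast_nonneg _) (by positivity) ?_
  calc ∑ c ∈ Pool.Agent.W307.RT.Cv m Z,
        (((Pool.Agent.W307.SE.SelR c.1 c.2).ncard : ℝ) / 4) ^ (k : ℝ)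
      ≤ ∑ c ∈ Pool.Agent.W307.RT.Cv m Z,
        ((Pool.Agent.W307.SE.SelR c.1 c.2).ncard : ℝ) ^ k := by
        refine sum_le_sum fun c _ => ?_
        rw [Real.rpow_natCast]
        refine pow_le_pow_left₀ (by positivity) ?_ k
        have : (0 : ℝ) ≤ ((Pool.Agent.W307.SE.SelR c.1 c.2).ncard : ℝ) := Nat.cast_nonneg _
        linarith
    _ ≤ C * ((Pool.Agent.W307.RT.Cv m Z).card * (1 + Real.log Z) ^ E) := hC Z hZ
    _ = _ := by ring

/-- the limit from the two bounds -/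
lemma limit_of {M : ℕ → ℝ} {e C : ℝ} (hC : 0 < C)
    (hup : ∀ Z : ℕ, 1 ≤ Z → M Z ≤ C * (1 + Real.log Z) ^ e) (he : 0 ≤ e)
    (hlow : ∀ ε : ℝ, 0 < ε → ∃ Z₀ : ℕ, ∀ Z : ℕ, Z₀ ≤ Z → (Real.log Z) ^ (e - ε) ≤ M Z) :
    Tendsto (fun Z : ℕ => Real.log (M Z) / Real.log (Real.log Z)) atTop (𝓝 e) := by
  rw [Metric.tendsto_atTop]
  intro δ hδ
  obtain ⟨Z₀, hZ₀⟩ := hlow (δ / 2) (by positivity)
  have hll : Tendsto (fun Z : ℕ => Real.log (Real.log (Z : ℝ))) atTop atTop :=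
    Real.tendsto_log_atTop.comp (Real.tendsto_log_atTop.comp tendsto_natCast_atTop_atTop)
  obtain ⟨Z₁, hZ₁⟩ := eventually_atTop.1 (hll.eventually_ge_atTop
    (1 + (|Real.log C| + e * Real.log 2) * (2 / δ)))
  obtain ⟨Z₂, hZ₂⟩ := eventually_atTop.1 ((Real.tendsto_log_atTop.comp
    (tendsto_natCast_atTop_atTop (R := ℝ))).eventually_ge_atTop 1)
  refine ⟨Z₀ + Z₁ + Z₂ + 3, fun Z hZ => ?_⟩
  have h1 := hZ₀ Z (by omega)
  have h2 := hZ₁ Z (by omega)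
  have h3 : (1 : ℝ) ≤ Real.log Z := hZ₂ Z (by omega)
  have h4 := hup Z (by omega)
  obtain ⟨l, hl⟩ : ∃ l : ℝ, l = Real.log Z := ⟨_, rfl⟩
  rw [← hl] at h1 h2 h3 h4 ⊢
  have hl0 : 0 < l := by linarith
  have hlog2 : 0 < Real.log 2 := Real.log_pos (by norm_num)
  have hK : 0 ≤ |Real.log C| + e * Real.log 2 := by positivity
  have hL1 : 1 ≤ Real.log l := by
    have : 0 ≤ (|Real.log C| + e * Real.log 2) * (2 / δ) := by positivity
    linarith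
  have hL0 : 0 < Real.log l := by linarith
  have hM0 : 0 < M Z := lt_of_lt_of_le (Real.rpow_pos_of_pos hl0 _) h1
  have h5 : (e - δ / 2) * Real.log l ≤ Real.log (M Z) := by
    rw [← Real.log_rpow hl0]
    exact Real.log_le_log (Real.rpow_pos_of_pos hl0 _) h1
  have h6 : Real.log (M Z) ≤ |Real.log C| + e * (Real.log 2 + Real.log l) := by
    have h7 : M Z ≤ C * (2 * l) ^ e := by
      refine h4.trans (mul_le_mul_of_nonneg_left ?_ hC.le)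
      exact Real.rpow_le_rpow (by linarith) (by linarith) he
    have h8 := Real.log_le_log hM0 h7
    rw [Real.log_mul hC.ne' (by positivity), Real.log_rpow (by positivity),
      Real.log_mul (by norm_num) hl0.ne'] at h8
    linarith [le_abs_self (Real.log C)]
  have h7 : (|Real.log C| + e * Real.log 2) < δ * Real.log l := by
    have h8 : (|Real.log C| + e * Real.log 2) * (2 / δ) < Real.log l := by linarith
    have h9 := mul_lt_mul_of_pos_left h8 hδ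
    have h10 : δ * ((|Real.log C| + e * Real.log 2) * (2 / δ)) =
        2 * (|Real.log C| + e * Real.log 2) := by
      field_simp
    rw [h10] at h9
    linarith
  have h8 : Real.log (M Z) / Real.log l < e + δ := by
    rw [div_lt_iff₀ hL0]
    nlinarith
  have h9 : e - δ < Real.log (M Z) / Real.log l := by
    rw [lt_div_iff₀ hL0]
    nlinarith
  rw [Real.dist_eq, abs_lt]
  constructor <;> linarith

/-- **Theorem.** Let `m` be `4`, `6` or `8`. There are finitely many elliptic curves over `ℚ` with a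
rational subgroup `Z/2 x Z/m` and height at most `Z`, and their number tends to infinity with `Z`; the
group `S = Sel_{2 ^ ∞}(E)[2]` is finite, of order `2 ^ rank * |Ш(E)[2]|`. Let `s > 0`. For `m = 4` and
for `m = 8` the average of `#S ^ s` over these curves is bounded if and only if `s ≤ 1`. For `m = 6`
it is bounded if `s ≤ 1` and unbounded if `2 ^ s > 8 / 3`. For all `s, ε > 0` and all large `Z` it is
at least `(log Z) ^ (e_m(s) - ε)`. For every integer `k ≥ 2` the average of `#S ^ k` is at most a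
constant times `(1 + log Z) ^ e_m(k)`, and `log (average of #S ^ k) / log log Z` tends to `e_m(k)`. -/
theorem result :
    (∀ m : ℕ, m = 4 ∨ m = 6 ∨ m = 8 →
      (∀ Z : ℕ, (Fam m Z).Finite) ∧ Tendsto (fun Z : ℕ => (Fam m Z).ncard) atTop atTop ∧
      ∀ Z : ℕ, ∀ c ∈ Fam m Z, Finite (S c) ∧
        Nat.card (S c) = 2 ^ Module.finrank ℤ (E c).toAffine.Point *
          Nat.card {x : Sha (E c) // x + x = 0}) ∧
    (∀ s : ℝ, 0 < s →
      ((∃ C : ℝ, ∀ Z : ℕ, moment 4 s Z ≤ C) ↔ s ≤ 1) ∧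
      ((∃ C : ℝ, ∀ Z : ℕ, moment 8 s Z ≤ C) ↔ s ≤ 1) ∧
      (s ≤ 1 → ∃ C : ℝ, ∀ Z : ℕ, moment 6 s Z ≤ C) ∧
      (8 / 3 < (2 : ℝ) ^ s → ¬ ∃ C : ℝ, ∀ Z : ℕ, moment 6 s Z ≤ C)) ∧
    ∀ m : ℕ, m = 4 ∨ m = 6 ∨ m = 8 →
      (∀ s ε : ℝ, 0 < s → 0 < ε → ∃ Z₀ : ℕ, ∀ Z : ℕ, Z₀ ≤ Z →
        (Real.log Z) ^ (e m s - ε) ≤ moment m s Z) ∧
      (∀ k : ℕ, 2 ≤ k → ∃ C : ℝ, ∀ Z : ℕ, 1 ≤ Z → moment m k Z ≤ C * (1 + Real.log Z) ^ e m k) ∧
      ∀ k : ℕ, 2 ≤ k →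
        Tendsto (fun Z : ℕ => Real.log (moment m k Z) / Real.log (Real.log Z)) atTop
          (𝓝 (e m k)) := by
  classical
  have hconv := Pool.Agent.N547.H.t_CONV
  have hfam := Pool.Agent.N82.H.t_FAMK Pool.Agent.N701.H.t_AVGK
  have hmak : Pool.Agent.N870.H.S_MAKH := Pool.Agent.N870.H.t_MAKH
  have hcrv : Pool.Agent.N870.H.S_CRVK := Pool.Agent.N380.H.t_CRVK
  have havg8 : Pool.Agent.N870.H.S_AVG8 := Pool.Agent.N164.H.t_AVG8
  have hmak8 : Pool.Agent.N870.H.S_MAK8 := Pool.Agent.N870.H.Mak8f.t_MAK8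
  have hS : ∀ m Z : ℕ, m = 4 ∨ m = 6 ∨ m = 8 → ∀ c ∈ Fam m Z, Finite (S c) ∧
        Nat.card (S c) = 2 ^ Module.finrank ℤ (E c).toAffine.Point *
          Nat.card {x : Sha (E c) // x + x = 0} := fun m Z hm c hc =>
    ⟨(S_info hm hc).1, (S_info hm hc).2.2⟩
  have h4 : ∀ s ε : ℝ, 0 < s → 0 < ε → ∃ Z₀ : ℕ, ∀ Z : ℕ, Z₀ ≤ Z →
      (Real.log Z) ^ ((2 ^ s - 1) - 2 * (1 - 2 ^ (-s)) - ε) ≤ moment 4 s Z := fun s ε hs hε =>
    low_of (Or.inl rfl) _ s (fun ε hε => Pool.Agent.N870.EC.low_four Pool.Agent.N454.EC.t_CNT2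
      Pool.Agent.N568.EC.t_DEN4 Pool.Agent.N704.EC.t_FAM4
      (Pool.Agent.N300.EC.t_SZ4 Pool.Agent.N870.EC.selge) Pool.Agent.N459.EC.t_CARD4 s ε hs hε) ε hε
  have h6 : ∀ s ε : ℝ, 0 < s → 0 < ε → ∃ Z₀ : ℕ, ∀ Z : ℕ, Z₀ ≤ Z →
      (Real.log Z) ^ (3 / 2 * (2 ^ s - 1) - 4 * (1 - 2 ^ (-s)) - ε) ≤ moment 6 s Z :=
    fun s ε hs hε =>
    low_of (Or.inr (Or.inl rfl)) _ s (fun ε hε => Pool.Agent.N870.EC.low_six
      Pool.Agent.N454.EC.t_CNT2 Pool.Agent.N31.EC.t_DEN6 Pool.Agent.N870.EC.fam6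
      (Pool.Agent.N136.EC.t_SZG Pool.Agent.N870.EC.selge) Pool.Agent.N713.EC.t_CARDG
      Pool.Agent.Y606.Z8.px6.1 s ε hs hε) ε hε
  have h8 : ∀ s ε : ℝ, 0 < s → 0 < ε → ∃ Z₀ : ℕ, ∀ Z : ℕ, Z₀ ≤ Z →
      (Real.log Z) ^ (2 * (2 ^ s - 1) - 4 * (1 - 2 ^ (-s)) - ε) ≤ moment 8 s Z :=
    fun s ε hs hε =>
    low_of (Or.inr (Or.inr rfl)) _ s (fun ε hε => Pool.Agent.N870.EC.low_eight
      Pool.Agent.N454.EC.t_CNT2 Pool.Agent.N401.EC.t_DEN8 Pool.Agent.N803.EC.t_FAM8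
      (Pool.Agent.N136.EC.t_SZG Pool.Agent.N870.EC.selge) Pool.Agent.N713.EC.t_CARDG
      Pool.Agent.Y38.Z8.px8.1 s ε hs hε) ε hε
  have h2 : ∀ s : ℝ, 1 < s → (2 : ℝ) < 2 ^ s := by
    intro s hs
    calc (2 : ℝ) = 2 ^ (1 : ℝ) := (Real.rpow_one 2).symm
      _ < 2 ^ s := Real.rpow_lt_rpow_of_exponent_lt (by norm_num) hs
  have hlow : ∀ m : ℕ, m = 4 ∨ m = 6 ∨ m = 8 → ∀ s ε : ℝ, 0 < s → 0 < ε → ∃ Z₀ : ℕ, ∀ Z : ℕ,
      Z₀ ≤ Z → (Real.log Z) ^ (e m s - ε) ≤ moment m s Z := by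
    intro m hm s ε hs hε
    rcases hm with rfl | rfl | rfl
    · exact h4 s ε hs hε
    · exact h6 s ε hs hε
    · exact h8 s ε hs hε
  have he0 : ∀ m : ℕ, m = 4 ∨ m = 6 ∨ m = 8 → ∀ k : ℕ, 2 ≤ k → 0 ≤ e m k := by
    intro m hm k hk
    have h2k : (4 : ℝ) ≤ 2 ^ k := by
      calc (4 : ℝ) = 2 ^ 2 := by norm_num
        _ ≤ 2 ^ k := pow_le_pow_right₀ (by norm_num) hk
    have hk0 : (0 : ℝ) < k := by exact_mod_cast (by omega : 0 < k)
    have h2k' : (4 : ℝ) ≤ 2 ^ (k : ℝ) := by rw [Real.rpow_natCast]; exact h2k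
    rcases hm with rfl | rfl | rfl
    · have := exp_pos (g := 1) (b := 2) hk0 (by linarith)
      rw [one_mul] at this
      exact this.le
    · exact (exp_pos (g := 3 / 2) (b := 4) hk0 (by linarith)).le
    · exact (exp_pos (g := 2) (b := 4) hk0 (by linarith)).le
  have hup : ∀ m : ℕ, m = 4 ∨ m = 6 ∨ m = 8 → ∀ k : ℕ, 2 ≤ k → ∃ C : ℝ, 0 ≤ C ∧ ∀ Z : ℕ, 1 ≤ Z →
      moment m k Z ≤ C * (1 + Real.log Z) ^ e m k := by
    intro m hm k hk
    have h0 := he0 m hm k hk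
    refine up_of hm ?_
    rcases hm with rfl | rfl | rfl
    · exact hcrv 4 12 k (e 4 k) Pool.Agent.W307.RT.M4 Pool.Agent.W307.RT.N4 (by norm_num) h0
        Pool.Agent.Y723.Z8.S46.px4.1 Pool.Agent.W29.RT.low4 Pool.Agent.W701.FK.seld'
        Pool.Agent.W597.SE.selc (Pool.Agent.N870.H.box4 hconv hmak hfam (by omega))
    · exact hcrv 6 24 k (e 6 k) Pool.Agent.W307.RT.M6 Pool.Agent.W307.RT.N6 (by norm_num) h0
        Pool.Agent.Y606.Z8.px6.1 Pool.Agent.W376.RTL.low6 Pool.Agent.W701.FK.seld'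
        Pool.Agent.W597.SE.selc (Pool.Agent.N870.H.box6 hconv hmak hfam (by omega) h0 le_rfl)
    · exact hcrv 8 48 k (e 8 k) Pool.Agent.Y723.Z8.M8 Pool.Agent.Y723.Z8.N8 (by norm_num) h0
        Pool.Agent.Y38.Z8.px8.1 Pool.Agent.Y723.Z8.Fin8.low8 Pool.Agent.W701.FK.seld'
        Pool.Agent.W597.SE.selc (Pool.Agent.N870.H.box8 havg8 hmak8 (by omega))
  refine ⟨fun m hm => ⟨fun Z => by rw [Fam_eq]; exact finite_toSet _, tendstoH hm,
    fun Z => hS m Z hm⟩, ?_, ?_⟩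
  · intro s hs
    refine ⟨⟨fun h => ?_, fun h => bdd_of (Or.inl rfl) Pool.Agent.Y723.Z8.FinS8.selh4 h⟩,
      ⟨fun h => ?_, fun h => bdd_of (Or.inr (Or.inr rfl)) Pool.Agent.Y723.Z8.FinS8.selh8 h⟩,
      fun h => bdd_of (Or.inr (Or.inl rfl))
        (Pool.Agent.Y723.Z8.FinS8.selh6_of Pool.Agent.Y606.Z8.px6) h, fun h => ?_⟩
    · by_contra hs2
      push Not at hs2
      have h3 := exp_pos (g := 1) (b := 2) hs (by linarith [h2 s hs2])
      rw [one_mul] at h3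
      exact unb_of h3 (fun ε hε => h4 s ε hs hε) h
    · by_contra hs2
      push Not at hs2
      have h3 := exp_pos (g := 2) (b := 4) hs (by linarith [h2 s hs2])
      exact unb_of h3 (fun ε hε => h8 s ε hs hε) h
    · have h3 := exp_pos (g := 3 / 2) (b := 4) hs (by linarith)
      exact unb_of h3 (fun ε hε => h6 s ε hs hε)
  · intro m hm
    refine ⟨hlow m hm, fun k hk => ?_, fun k hk => ?_⟩
    · obtain ⟨C, -, hC⟩ := hup m hm k hk
      exact ⟨C, hC⟩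
    · obtain ⟨C, hC0, hC⟩ := hup m hm k hk
      have hk0 : (0 : ℝ) < k := by exact_mod_cast (show 0 < k by omega)
      refine limit_of (C := C + 1) (by linarith) (fun Z hZ => ?_) (he0 m hm k hk)
        (fun ε hε => hlow m hm k ε hk0 hε)
      refine (hC Z hZ).trans (mul_le_mul_of_nonneg_right (by linarith) ?_)
      have : 0 ≤ Real.log (Z : ℝ) := Real.log_natCast_nonneg Z
      positivity

end Pool.Agent.Results.MP_a3f657_nt.NoncyclicTorsionGrowth
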